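import Pool.Agent.W392.QI.Inst

set_option autoImplicit false
set_option linter.unusedSectionVars false
set_option linter.unusedSimpArgs false

/-! The free-by-cyclic group `H`. -/

namespace Pool.Agent.W392.QI

inductive Lt | a | p | q

instance : Fintype Lt := ⟨⟨[Lt.a, Lt.p, Lt.q], by simp⟩, by intro x; cases x <;> simp⟩

abbrev IH : Type := CH × Lt
abbrev F : Type := FreeGroup IH

def fa (k : CH) : F := FreeGroup.of (k, .a)
def fp (k : CH) : F := FreeGroup.of (k, .p)
def fq (k : CH) : F := FreeGroup.of (k, .q)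

def phiF : F →* F := FreeGroup.lift fun x => match x with
  | (k, .a) => fa k
  | (k, .p) => (fa k)⁻¹ * fp k
  | (k, .q) => (fa k)⁻¹ * (fa k)⁻¹ * fq k

def phiI : F →* F := FreeGroup.lift fun x => match x with
  | (k, .a) => fa k
  | (k, .p) => fa k * fp k
  | (k, .q) => fa k * fa k * fq k

theorem phiF_a (k : CH) : phiF (fa k) = fa k := FreeGroup.lift_apply_of
theorem phiF_p (k : CH) : phiF (fp k) = (fa k)⁻¹ * fp k := FreeGroup.lift_apply_of
theorem phiF_q (k : CH) : phiF (fq k) = (fa k)⁻¹ * (fa k)⁻¹ * fq k := FreeGroup.lift_apply_of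
theorem phiI_a (k : CH) : phiI (fa k) = fa k := FreeGroup.lift_apply_of
theorem phiI_p (k : CH) : phiI (fp k) = fa k * fp k := FreeGroup.lift_apply_of
theorem phiI_q (k : CH) : phiI (fq k) = fa k * fa k * fq k := FreeGroup.lift_apply_of

def phi : MulAut F := MonoidHom.toMulEquiv phiF phiI
  (by
    apply FreeGroup.ext_hom
    rintro ⟨k, x⟩
    cases x
    · show phiI (phiF (fa k)) = fa k
      rw [phiF_a, phiI_a]
    · show phiI (phiF (fp k)) = fp k
      rw [phiF_p, map_mul, map_inv, phiI_a, phiI_p, inv_mul_cancel_left]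
    · show phiI (phiF (fq k)) = fq k
      rw [phiF_q, map_mul, map_mul, map_inv, phiI_a, phiI_q]; group)
  (by
    apply FreeGroup.ext_hom
    rintro ⟨k, x⟩
    cases x
    · show phiF (phiI (fa k)) = fa k
      rw [phiI_a, phiF_a]
    · show phiF (phiI (fp k)) = fp k
      rw [phiI_p, map_mul, phiF_a, phiF_p, mul_inv_cancel_left]
    · show phiF (phiI (fq k)) = fq k
      rw [phiI_q, map_mul, map_mul, phiF_a, phiF_q]; group)

theorem phi_apply (x : F) : phi x = phiF x := rfl

abbrev H : Type := F ⋊[zpowersHom (MulAut F) phi] (Multiplicative ℤ)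

open SemidirectProduct in
def hz : H := inr (Multiplicative.ofAdd 1)

def hl (x : F) : H := SemidirectProduct.inl x

theorem hl_mul (x y : F) : hl (x * y) = hl x * hl y := map_mul _ _ _
theorem hl_inv (x : F) : hl x⁻¹ = (hl x)⁻¹ := map_inv _ _

theorem hz_hl (x : F) : hz * hl x = hl (phi x) * hz := by
  have h := SemidirectProduct.inl_aut (φ := zpowersHom (MulAut F) phi) (Multiplicative.ofAdd 1) x
  have e : (zpowersHom (MulAut F) phi) (Multiplicative.ofAdd 1) = phi := by
    simp [zpowersHom_apply]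
  rw [e] at h
  show hz * hl x = SemidirectProduct.inl (phi x) * hz
  rw [h]
  show hz * hl x = hz * hl x * _ * hz
  rw [map_inv, mul_assoc]
  show hz * hl x = hz * hl x * (hz⁻¹ * hz)
  rw [inv_mul_cancel, mul_one]

def hu (k : CH) : H := hl (fa k) * hz

theorem hz_hu (k : CH) : hz * hu k = hu k * hz := by
  unfold hu
  rw [← mul_assoc, hz_hl, phi_apply, phiF_a]

theorem hu_p (k : CH) : hu k * hl (fp k) = hl (fp k) * hz := by
  unfold hu
  rw [mul_assoc, hz_hl, phi_apply, phiF_p, ← mul_assoc, ← hl_mul, mul_inv_cancel_left]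

theorem hu_q (k : CH) : hu k * hu k * hl (fq k) = hz * hl (fq k) * hz := by
  have h1 : hz * hl (fq k) = hl ((fa k)⁻¹ * (fa k)⁻¹ * fq k) * hz := by
    rw [hz_hl, phi_apply, phiF_q]
  have h2 : hu k * hu k = hl (fa k) * hl (fa k) * hz * hz := by
    have h3 : hz * hl (fa k) = hl (fa k) * hz := by rw [hz_hl, phi_apply, phiF_a]
    unfold hu
    calc hl (fa k) * hz * (hl (fa k) * hz) = hl (fa k) * (hz * hl (fa k)) * hz := by
          simp only [mul_assoc]
      _ = _ := by rw [h3]; simp only [mul_assoc]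
  have h4 : hz * (hl ((fa k)⁻¹ * (fa k)⁻¹ * fq k)) =
      hl ((fa k)⁻¹ * (fa k)⁻¹ * ((fa k)⁻¹ * (fa k)⁻¹ * fq k)) * hz := by
    rw [hz_hl, phi_apply, map_mul, map_mul, map_inv, phiF_a, phiF_q]
  rw [h2, mul_assoc _ hz, h1, mul_assoc _ hz, ← mul_assoc hz, h4, ← mul_assoc, ← mul_assoc,
    ← hl_mul, ← hl_mul]
  have e : fa k * fa k * ((fa k)⁻¹ * (fa k)⁻¹ * ((fa k)⁻¹ * (fa k)⁻¹ * fq k)) =
    (fa k)⁻¹ * (fa k)⁻¹ * fq k := by group
  rw [e]

def rawH : Raw SH H where
  z := hz
  e1 _ := hz
  e2 k := hu k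
  comm k := hz_hu k
  ell k r := match r with
    | .r0 => 1
    | .r1 => hl (fp k)
    | .r2 => hl (fq k)
  ell_base _ := rfl
  rel k r := by
    cases r
    · show hz ^ (1 : ℤ) * hu k ^ (0 : ℤ) * 1 = 1 * hz
      simp
    · show hz ^ (0 : ℤ) * hu k ^ (1 : ℤ) * hl (fp k) = hl (fp k) * hz
      rw [zpow_zero, zpow_one, one_mul, hu_p]
    · show hz ^ (-1 : ℤ) * hu k ^ (2 : ℤ) * hl (fq k) = hl (fq k) * hz
      rw [zpow_neg_one, zpow_two, mul_assoc, hu_q, mul_assoc, inv_mul_cancel_left]

/-! action -/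

def fF : IH → Equiv.Perm (X CH)
  | (k, .a) => (actL SH k (0, 1))⁻¹ * actZ
  | (k, .p) => (actR SH k .r1)⁻¹
  | (k, .q) => (actR SH k .r2)⁻¹

def f1 : F →* Equiv.Perm (X CH) := FreeGroup.lift fF

theorem f1_a (k : CH) : f1 (fa k) = (actL SH k (0, 1))⁻¹ * actZ := FreeGroup.lift_apply_of
theorem f1_p (k : CH) : f1 (fp k) = (actR SH k .r1)⁻¹ := FreeGroup.lift_apply_of
theorem f1_q (k : CH) : f1 (fq k) = (actR SH k .r2)⁻¹ := FreeGroup.lift_apply_of

theorem actZ_H (k : CH) : (actZ : Equiv.Perm (X CH)) = actL SH k (1, 0) := (actL_base SH k).symm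

theorem f1_phi (x : F) : f1 (phi x) = (actZ)⁻¹ * f1 x * ((actZ)⁻¹)⁻¹ := by
  have h : f1.comp phiF = (MulAut.conj (actZ⁻¹ : Equiv.Perm (X CH))).toMonoidHom.comp f1 := by
    apply FreeGroup.ext_hom
    rintro ⟨k, x⟩
    have ha : (f1 (fa k)) = actL SH k (1, -1) := by
      rw [f1_a, actZ_H k, actL_inv, actL_mul]; rfl
    cases x
    · show f1 (phiF (fa k)) = (actZ)⁻¹ * f1 (fa k) * ((actZ)⁻¹)⁻¹
      rw [phiF_a, ha, actZ_H k, actL_inv, actL_inv, actL_mul, actL_mul]
      rfl
    · show f1 (phiF (fp k)) = (actZ)⁻¹ * f1 (fp k) * ((actZ)⁻¹)⁻¹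
      rw [phiF_p, map_mul, map_inv, ha, f1_p, inv_inv]
      have h1 : actR SH k Role.r1 * actL SH k (0, 1) = actZ * actR SH k Role.r1 :=
        actR_rel' SH k Role.r1
      have h2 : (actR SH k Role.r1)⁻¹ * actZ = actL SH k (0, 1) * (actR SH k Role.r1)⁻¹ := by
        rw [inv_mul_eq_iff_eq_mul, ← mul_assoc, h1, mul_inv_cancel_right]
      rw [mul_assoc, h2, ← mul_assoc, actZ_H k, actL_inv, actL_inv, actL_mul]
      rfl
    · show f1 (phiF (fq k)) = (actZ)⁻¹ * f1 (fq k) * ((actZ)⁻¹)⁻¹
      rw [phiF_q, map_mul, map_mul, map_inv, ha, f1_q, inv_inv]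
      have h1 : actR SH k Role.r2 * actL SH k (-1, 2) = actZ * actR SH k Role.r2 :=
        actR_rel' SH k Role.r2
      have h2 : (actR SH k Role.r2)⁻¹ * actZ = actL SH k (-1, 2) * (actR SH k Role.r2)⁻¹ := by
        rw [inv_mul_eq_iff_eq_mul, ← mul_assoc, h1, mul_inv_cancel_right]
      rw [mul_assoc _ _ actZ, h2, ← mul_assoc, actZ_H k, actL_inv, actL_inv, actL_mul, actL_mul]
      rfl
  exact DFunLike.congr_fun h x

theorem pow_compat {P : Type} [Group P] (f : F →* P) (e : MulAut F) (z : P)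
    (h : ∀ x, f (e x) = z * f x * z⁻¹) (n : ℤ) : ∀ x, f ((e ^ n) x) = z ^ n * f x * (z ^ n)⁻¹ := by
  induction n using Int.induction_on with
  | zero => intro x; simp
  | succ n ih =>
    intro x
    rw [zpow_add, zpow_one, MulAut.mul_apply, ih, h, zpow_add, zpow_one]
    group
  | pred n ih =>
    intro x
    have h' : ∀ x, f (e⁻¹ x) = z⁻¹ * f x * z := by
      intro x
      have := h (e⁻¹ x)
      rw [MulAut.apply_inv_self] at this
      rw [this]; group
    rw [zpow_sub, zpow_one, MulAut.mul_apply, ih, h', zpow_sub, zpow_one]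
    group

theorem actH_aux (n : Multiplicative ℤ) : f1.comp (zpowersHom (MulAut F) phi n).toMonoidHom =
    (MulAut.conj (zpowersHom (Equiv.Perm (X CH)) (actZ)⁻¹ n)).toMonoidHom.comp f1 := by
  refine MonoidHom.ext fun x => ?_
  have := pow_compat f1 phi (actZ)⁻¹ f1_phi (Multiplicative.toAdd n) x
  simp only [MonoidHom.comp_apply, MulEquiv.coe_toMonoidHom, zpowersHom_apply,
    MulAut.conj_apply]
  exact this

def actH : H →* Equiv.Perm (X CH) :=
  SemidirectProduct.lift f1 (zpowersHom _ (actZ)⁻¹) actH_aux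

theorem actH_l (x : F) : actH (hl x) = f1 x := SemidirectProduct.lift_inl _ _ _ _
theorem actH_z : actH hz = (actZ)⁻¹ := by
  have := SemidirectProduct.lift_inr f1 (zpowersHom _ (actZ)⁻¹) actH_aux (Multiplicative.ofAdd 1)
  refine this.trans ?_
  simp [zpowersHom_apply]

theorem genH_top : Subgroup.closure (rawH.toTG.gens) = ⊤ := by
  rw [eq_top_iff]
  intro x _
  have hzm : hz ∈ Subgroup.closure (rawH.toTG.gens) := Subgroup.subset_closure rawH.mem_z
  have hlm : ∀ y : F, hl y ∈ Subgroup.closure (rawH.toTG.gens) := by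
    intro y
    induction y using FreeGroup.induction_on with
    | C1 => rw [show hl 1 = 1 from map_one _]; exact one_mem _
    | of x =>
      obtain ⟨k, x⟩ := x
      cases x
      · have h1 : hl (fa k) = hu k * hz⁻¹ := by unfold hu; rw [mul_inv_cancel_right]
        show hl (fa k) ∈ _
        rw [h1]
        exact mul_mem (Subgroup.subset_closure (rawH.mem_e2 k)) (inv_mem hzm)
      · exact Subgroup.subset_closure (rawH.mem_ell k Role.r1)
      · exact Subgroup.subset_closure (rawH.mem_ell k Role.r2)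
    | inv_of x h =>
      rw [hl_inv]; exact inv_mem h
    | mul x y hx hy =>
      rw [hl_mul]; exact mul_mem hx hy
  have e : x = hl x.left * hz ^ (Multiplicative.toAdd x.right) := by
    have h1 := SemidirectProduct.inl_left_mul_inr_right x
    have h2 : (SemidirectProduct.inr x.right : H) = hz ^ (Multiplicative.toAdd x.right) := by
      unfold hz
      rw [← map_zpow]
      congr 1
      rw [← ofAdd_zsmul]
      simp
    rw [h2] at h1
    exact h1.symm
  rw [e]
  exact mul_mem (hlm _) (zpow_mem hzm _)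

def taH : TA SH H :=
  rawH.toTA actH actH_z
    (by
      intro k
      show actH hz = _
      rw [actH_z, actZ_H k])
    (by
      intro k
      show actH (hl (fa k) * hz) = _
      rw [map_mul, actH_l, actH_z, f1_a, mul_inv_cancel_right])
    (by
      intro k r
      cases r
      · show actH 1 = _
        rw [map_one]
        have := actR_base SH k
        rw [show SH.base k = Role.r0 from rfl] at this
        rw [this, inv_one]
      · show actH (hl (fp k)) = _
        rw [actH_l, f1_p]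
      · show actH (hl (fq k)) = _
        rw [actH_l, f1_q])
    genH_top

theorem H_fbc : ∃ φ : H →* Multiplicative ℤ, Function.Surjective φ ∧
    IsFreeGroup ↥φ.ker ∧ Group.FG ↥φ.ker := by
  refine ⟨SemidirectProduct.rightHom, SemidirectProduct.rightHom_surjective, ?_⟩
  have e : F ≃* ↥(SemidirectProduct.rightHom (φ := zpowersHom (MulAut F) phi)).ker := by
    rw [← SemidirectProduct.range_inl_eq_ker_rightHom]
    exact MonoidHom.ofInjective SemidirectProduct.inl_injective
  constructor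
  · exact IsFreeGroup.ofMulEquiv e
  · have : Group.FG F := inferInstance
    exact Group.fg_of_surjective (f := e.toMonoidHom) e.surjective

end Pool.Agent.W392.QI
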