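import Mathlib
import Pool.Agent.Helper867.PF.FreeRes

set_option autoImplicit false

/-! Finitely generated free by `ℤ` groups are residually finite. -/

namespace Pool.Agent.W392.QI

section

variable {K : Type} [Group K] (ψ : K →* Multiplicative ℤ) (Q : Type) [Group Q]

abbrev Om : Type := ψ.ker →* Q

/-- left translations -/
def aH : ψ.ker →* Equiv.Perm (Om ψ Q → Q) where
  toFun x :=
    { toFun := fun h g => g x * h g
      invFun := fun h g => (g x)⁻¹ * h g
      left_inv := fun h => by funext g; simp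
      right_inv := fun h => by funext g; simp }
  map_one' := by ext h g; simp
  map_mul' x y := by ext h g; simp [mul_assoc]

theorem aH_apply (x : ψ.ker) (h : Om ψ Q → Q) (g : Om ψ Q) : aH ψ Q x h g = g x * h g := rfl

variable (t : K)

def sig : MulAut ψ.ker := MulAut.conjNormal t

def tau : Equiv.Perm (Om ψ Q → Q) where
  toFun h g := h (g.comp (sig ψ t).toMonoidHom)
  invFun h g := h (g.comp (sig ψ t)⁻¹.toMonoidHom)
  left_inv h := by
    funext g
    exact congrArg h (MonoidHom.ext fun x => by simp)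
  right_inv h := by
    funext g
    exact congrArg h (MonoidHom.ext fun x => by simp)

theorem tau_aH (x : ψ.ker) : tau ψ Q t * aH ψ Q x = aH ψ Q (sig ψ t x) * tau ψ Q t := by
  ext h g
  rfl

theorem tau_pow (n : ℤ) : ∀ x : ψ.ker,
    tau ψ Q t ^ n * aH ψ Q x = aH ψ Q ((sig ψ t ^ n) x) * tau ψ Q t ^ n := by
  induction n using Int.induction_on with
  | zero => intro x; simp
  | succ n ih =>
    intro x
    rw [zpow_add, zpow_one, mul_assoc, tau_aH, ← mul_assoc, ih, zpow_add, zpow_one,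
      MulAut.mul_apply, mul_assoc]
  | pred n ih =>
    intro x
    have h : (tau ψ Q t)⁻¹ * aH ψ Q x = aH ψ Q ((sig ψ t)⁻¹ x) * (tau ψ Q t)⁻¹ := by
      rw [inv_mul_eq_iff_eq_mul, ← mul_assoc, tau_aH, MulAut.apply_inv_self, mul_inv_cancel_right]
    rw [zpow_sub, zpow_one, mul_assoc, h, ← mul_assoc, ih, zpow_sub, zpow_one,
      MulAut.mul_apply, mul_assoc]

theorem sig_pow (n : ℤ) (x : ψ.ker) : (((sig ψ t ^ n) x : ψ.ker) : K) = t ^ n * x * (t ^ n)⁻¹ := by
  unfold sig
  rw [← map_zpow, MulAut.conjNormal_apply]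

variable (ht : ψ t = Multiplicative.ofAdd 1)

include ht in
theorem kp_mem (k : K) : k * (t ^ (Multiplicative.toAdd (ψ k)))⁻¹ ∈ ψ.ker := by
  rw [MonoidHom.mem_ker, map_mul, map_inv, map_zpow, ht, ← ofAdd_zsmul]
  simp

def kp (k : K) : ψ.ker := ⟨k * (t ^ (Multiplicative.toAdd (ψ k)))⁻¹, kp_mem ψ t ht k⟩

theorem kp_mul (k l : K) : kp ψ t ht (k * l) =
    kp ψ t ht k * (sig ψ t ^ (Multiplicative.toAdd (ψ k))) (kp ψ t ht l) := by
  apply Subtype.ext
  rw [Subgroup.coe_mul, sig_pow]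
  simp only [kp, map_mul, toAdd_mul, zpow_add]
  group

/-- the representation on a finite set -/
def rho : K →* Equiv.Perm (Om ψ Q → Q) where
  toFun k := aH ψ Q (kp ψ t ht k) * tau ψ Q t ^ (Multiplicative.toAdd (ψ k))
  map_one' := by
    have : kp ψ t ht 1 = 1 := by
      apply Subtype.ext
      simp [kp]
    rw [this]; simp
  map_mul' k l := by
    rw [kp_mul, map_mul, map_mul, toAdd_mul, zpow_add]
    have := tau_pow ψ Q t (Multiplicative.toAdd (ψ k)) (kp ψ t ht l)
    calc _ = aH ψ Q (kp ψ t ht k) * (aH ψ Q ((sig ψ t ^ (Multiplicative.toAdd (ψ k)))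
          (kp ψ t ht l)) * tau ψ Q t ^ (Multiplicative.toAdd (ψ k))) *
          tau ψ Q t ^ (Multiplicative.toAdd (ψ l)) := by simp only [mul_assoc]
      _ = _ := by rw [← this]; simp only [mul_assoc]

end

theorem finite_hom (A Q : Type) [Group A] [Group Q] [Finite Q] [h : Group.FG A] :
    Finite (A →* Q) := by
  obtain ⟨S, hS⟩ := Group.fg_iff.mp h
  obtain ⟨hS, hf⟩ := hS
  have : Finite S := hf
  refine Finite.of_injective (fun (f : A →* Q) (s : S) => f s) ?_
  intro f g hfg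
  apply MonoidHom.eq_of_eqOn_dense hS
  intro s hs
  exact congrFun hfg ⟨s, hs⟩

theorem rf_by_Z {K : Type} [Group K] (ψ : K →* Multiplicative ℤ)
    (hψ : Function.Surjective ψ) (hfree : IsFreeGroup ψ.ker) (hfg : Group.FG ψ.ker)
    (w : K) (hw : w ≠ 1) :
    ∃ (P : Type) (_ : Group P) (_ : Finite P) (f : K →* P), f w ≠ 1 := by
  obtain ⟨t, ht⟩ := hψ (Multiplicative.ofAdd 1)
  by_cases hk : ψ w = 1
  · have hw' : (⟨w, hk⟩ : ψ.ker) ≠ 1 := fun h => hw (congrArg Subtype.val h)
    have hw'' : IsFreeGroup.toFreeGroup ψ.ker (⟨w, hk⟩ : ψ.ker) ≠ 1 := by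
      intro h
      apply hw'
      apply (IsFreeGroup.toFreeGroup ψ.ker).injective
      rw [h, map_one]
    obtain ⟨Q, iQ, fQ, f, -, hf⟩ := Pool.Agent.Helper867.PF.free_res _ hw''
    have hfin := finite_hom ψ.ker Q
    refine ⟨Equiv.Perm (Om ψ Q → Q), inferInstance, inferInstance, rho ψ Q t ht, ?_⟩
    intro h1
    let f0 : Om ψ Q := f.comp (IsFreeGroup.toFreeGroup ψ.ker).toMonoidHom
    have h2 := congrArg (fun e : Equiv.Perm (Om ψ Q → Q) => e 1 f0) h1
    have h3 : kp ψ t ht w = ⟨w, hk⟩ := by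
      apply Subtype.ext
      simp [kp, hk]
    have h4 : rho ψ Q t ht w = aH ψ Q ⟨w, hk⟩ := by
      show aH ψ Q (kp ψ t ht w) * tau ψ Q t ^ (Multiplicative.toAdd (ψ w)) = _
      rw [h3, hk]
      simp
    rw [h4] at h2
    apply hf
    have h5 : f0 ⟨w, hk⟩ * 1 = 1 := h2
    rw [mul_one] at h5
    exact h5
  · let m : ℤ := Multiplicative.toAdd (ψ w)
    have hm : m ≠ 0 := by
      intro h
      exact hk (Multiplicative.toAdd.injective h)
    let N : ℕ := m.natAbs + 1
    have : NeZero N := ⟨Nat.succ_ne_zero _⟩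
    let q : ℤ →+ ZMod N := (Int.castRingHom (ZMod N)).toAddMonoidHom
    refine ⟨Multiplicative (ZMod N), inferInstance, inferInstance,
      (AddMonoidHom.toMultiplicative q).comp ψ, ?_⟩
    intro h
    have h1 : (m : ZMod N) = 0 := by
      have h0 : (Int.castRingHom (ZMod N)) m = 0 := congrArg Multiplicative.toAdd h
      rwa [eq_intCast] at h0
    rw [ZMod.intCast_zmod_eq_zero_iff_dvd] at h1
    have h2 := Int.natAbs_dvd_natAbs.2 h1
    simp only [Int.natAbs_natCast] at h2
    have h3 := Nat.le_of_dvd (Int.natAbs_pos.2 hm) h2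
    omega

end Pool.Agent.W392.QI
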