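import Pool.Agent.W392.QI.GrpG
import Pool.Agent.W392.QI.GrpH
import Pool.Agent.W392.QI.RF

set_option autoImplicit false

/-! `G` is not virtually free-by-cyclic. -/

namespace Pool.Agent.W392.QI

theorem rr_sq : rr * rr = gg .z := by
  unfold rr
  have h := rel_e
  calc (gg .al)⁻¹ * gg .y * gg .al * ((gg .al)⁻¹ * gg .y * gg .al)
      = (gg .al)⁻¹ * (gg .y * gg .y * gg .al) := by group
    _ = gg .z := by rw [← h, inv_mul_cancel_left]

theorem ww_dies (P : Type) [Group P] [Finite P] (f : G →* P) : f ww = 1 := by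
  set Z := f (gg .z) with hZ
  set Y := f (gg .y) with hY
  have hZY : Commute Z Y := by
    have := congrArg f rel_d
    rw [map_mul, map_mul] at this
    exact this
  have h1 : f (gg .al) * Z * (f (gg .al))⁻¹ = Y * Y := by
    have := congrArg f rel_e
    rw [map_mul, map_mul, map_mul] at this
    rw [this, mul_inv_cancel_right]
  have h2 : f (gg .be) * Z * (f (gg .be))⁻¹ = Y * Y * Y * Z⁻¹ := by
    have := congrArg f rel_f
    simp only [map_mul, map_inv] at this
    rw [this, mul_inv_cancel_right]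
  obtain ⟨n, hn0, hn⟩ : ∃ n : ℕ, n = orderOf Z ∧ Z ^ n = 1 := ⟨orderOf Z, rfl, pow_orderOf_eq_one Z⟩
  have h3 : (Y * Y) ^ n = 1 := by
    rw [← h1, conj_pow, hn]; simp
  have h4 : (Y * Y * Y * Z⁻¹) ^ n = 1 := by
    rw [← h2, conj_pow, hn]; simp
  have hYn : Y ^ n = 1 := by
    have e : Y * Y * Y * Z⁻¹ = (Y * Y) * (Y * Z⁻¹) := by simp only [mul_assoc]
    have c1 : Commute (Y * Y) (Y * Z⁻¹) :=
      ((Commute.refl Y).mul_left (Commute.refl Y)).mul_right
        ((hZY.symm.inv_right).mul_left (hZY.symm.inv_right))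
    rw [e, c1.mul_pow, h3, one_mul, (hZY.symm.inv_right).mul_pow, inv_pow, hn, inv_one,
      mul_one] at h4
    exact h4
  have hord : orderOf (Y ^ 2) = n := by
    rw [pow_two, ← h1, hn0]
    exact orderOf_injective ((MulAut.conj (f (gg .al))).toMonoidHom) (MulAut.conj (f (gg .al))).injective Z
  have h5 : orderOf Y ∣ orderOf (Y ^ 2) := by
    rw [hord]
    exact orderOf_dvd_of_pow_eq_one hYn
  have h6 : Nat.Coprime 2 (orderOf Y) := by
    have h7 := orderOf_pow_dvd (x := Y) 2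
    have h8 := Nat.dvd_antisymm h7 h5
    have h9 := orderOf_pow Y (n := 2)
    rw [h8] at h9
    have hpos := orderOf_pos Y
    have h10 : (orderOf Y).gcd 2 = 1 := by
      by_contra hne
      have hg : 1 < (orderOf Y).gcd 2 := by
        have := Nat.gcd_pos_of_pos_right (orderOf Y) (by norm_num : 0 < 2)
        omega
      have := Nat.div_lt_self hpos hg
      omega
    rw [Nat.coprime_comm]
    exact h10
  obtain ⟨m, hm⟩ := exists_pow_eq_self_of_coprime h6
  have hr : f rr = Z ^ m := by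
    have e1 : f rr = (f (gg .al))⁻¹ * Y * f (gg .al) := by
      simp only [rr, map_mul, map_inv, hY]
    have e2 : Z = (f (gg .al))⁻¹ * (Y ^ 2) * f (gg .al) := by
      rw [pow_two, ← h1]; group
    rw [e1, e2]
    have e3 := conj_pow (i := m) (a := (f (gg .al))⁻¹) (b := Y ^ 2)
    rw [inv_inv] at e3
    rw [e3, hm]
  have hZu : Commute Z (f (gg .u)) := by
    have := congrArg f rel_a
    rw [map_mul, map_mul] at this
    exact this
  have h11 : Commute (f rr) (f (gg .u)) := by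
    rw [hr]
    exact hZu.pow_left m
  simp only [ww, map_mul, map_inv]
  rw [h11.eq, mul_inv_cancel_right, mul_inv_cancel]

theorem ww_ne : ww ≠ 1 := by
  intro h
  have h1 : rr * gg .u = gg .u * rr := by
    have : rr * gg .u * rr⁻¹ * (gg .u)⁻¹ = 1 := h
    rw [mul_inv_eq_one, mul_inv_eq_iff_eq_mul] at this
    exact this
  have hact : actG (rr * gg .u)⁻¹ x0 = actG (gg .u * rr)⁻¹ x0 := by rw [h1]
  simp only [rr, mul_inv_rev, inv_inv, map_mul, map_inv, actG_gg, actF, Equiv.Perm.mul_apply]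
    at hact
  have h2 := congrArg (fun x : X CG => x.1.1.map (fun s => s.c)) hact
  revert h2
  have e1 : (List.map (fun s : Step CG => s.c)
    ((actL SG CG.V (0, 1)) ((actR SG CG.E Role.r0)
      ((actL SG CG.E (1, 0)) ((actR SG CG.E Role.r0)⁻¹ x0)))).1.1) = [CG.V, CG.E] := by
    rfl
  have e2 : (List.map (fun s : Step CG => s.c)
    ((actR SG CG.E Role.r0) ((actL SG CG.E (1, 0)) ((actR SG CG.E Role.r0)⁻¹
      ((actL SG CG.V (0, 1)) x0)))).1.1) = [CG.E, CG.V] := by
    rfl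
  intro h2
  have h3 : [CG.V, CG.E] = [CG.E, CG.V] := by
    rw [← e1, ← e2]
    exact h2
  exact absurd h3 (by simp)

theorem ww_mem (N : Subgroup G) [N.FiniteIndex] : ww ∈ N := by
  have h : N.normalCore.FiniteIndex := inferInstance
  have hf : Finite (G ⧸ N.normalCore) := inferInstance
  have h1 := ww_dies (G ⧸ N.normalCore) (QuotientGroup.mk' N.normalCore)
  have h2 : ww ∈ N.normalCore := by
    rw [← QuotientGroup.eq_one_iff]
    exact h1
  exact N.normalCore_le h2

theorem not_virtually (K : Subgroup G) (hK : K.FiniteIndex) (ψ : K →* Multiplicative ℤ)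
    (hψ : Function.Surjective ψ) (hfree : IsFreeGroup ψ.ker) (hfg : Group.FG ψ.ker) : False := by
  have hw : ww ∈ K := ww_mem K
  obtain ⟨P, iP, fP, f, hf⟩ := rf_by_Z ψ hψ hfree hfg ⟨ww, hw⟩
    (fun h => ww_ne (congrArg Subtype.val h))
  have hfk : f.ker.FiniteIndex := inferInstance
  have hN : (f.ker.map K.subtype).FiniteIndex := by
    constructor
    rw [Subgroup.index_map_subtype]
    exact mul_ne_zero hfk.index_ne_zero hK.index_ne_zero
  obtain ⟨k, hk1, hk2⟩ := ww_mem (f.ker.map K.subtype)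
  apply hf
  have : k = ⟨ww, hw⟩ := Subtype.ext hk2
  rw [← this]
  exact hk1

theorem gens_finite {C : Type} [DecidableEq C] [Finite C] {S : Sys C} {Γ : Type} [Group Γ]
    (T : TG S Γ) : T.gens.Finite := by
  have : T.gens = {T.z} ∪ (Set.range fun c => T.lat c (1, 0)) ∪ (Set.range fun c => T.lat c (0, 1)) ∪
      (Set.range fun x : C × Role => T.ell x.1 x.2) := by
    ext g
    simp only [TG.gens, Set.mem_ofPred_eq, Set.mem_union, Set.mem_singleton_iff, Set.mem_range,
      Prod.exists]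
    constructor
    · rintro (h | ⟨c, h⟩ | ⟨c, h⟩ | ⟨c, r, h⟩)
      · exact Or.inl (Or.inl (Or.inl h))
      · exact Or.inl (Or.inl (Or.inr ⟨c, h.symm⟩))
      · exact Or.inl (Or.inr ⟨c, h.symm⟩)
      · exact Or.inr ⟨c, r, h.symm⟩
    · rintro (((h | ⟨c, h⟩) | ⟨c, h⟩) | ⟨c, r, h⟩)
      · exact Or.inl h
      · exact Or.inr (Or.inl ⟨c, h.symm⟩)
      · exact Or.inr (Or.inr (Or.inl ⟨c, h.symm⟩))
      · exact Or.inr (Or.inr (Or.inr ⟨c, r, h.symm⟩))
  rw [this]
  exact (((Set.finite_singleton _).union (Set.finite_range _)).union (Set.finite_range _)).union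
    (Set.finite_range _)

theorem qi_frozen : ∃ (S : Finset G) (T : Finset H) (f : G → H) (L C : ℕ),
          Subgroup.closure (S : Set G) = ⊤ ∧ Subgroup.closure (T : Set H) = ⊤ ∧
          (∀ a b : G, ∀ n : ℕ,
            (∃ l : List G, l.length ≤ n ∧ (∀ x ∈ l, x ∈ S ∨ x⁻¹ ∈ S) ∧ l.prod = a⁻¹ * b) →
            ∃ l : List H, l.length ≤ L * n + C ∧ (∀ x ∈ l, x ∈ T ∨ x⁻¹ ∈ T) ∧
              l.prod = (f a)⁻¹ * f b) ∧
          (∀ a b : G, ∀ n : ℕ,
            (∃ l : List H, l.length ≤ n ∧ (∀ x ∈ l, x ∈ T ∨ x⁻¹ ∈ T) ∧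
              l.prod = (f a)⁻¹ * f b) →
            ∃ l : List G, l.length ≤ L * n + C ∧ (∀ x ∈ l, x ∈ S ∨ x⁻¹ ∈ S) ∧
              l.prod = a⁻¹ * b) ∧
          (∀ y : H, ∃ x : G, ∃ l : List H, l.length ≤ C ∧ (∀ z ∈ l, z ∈ T ∨ z⁻¹ ∈ T) ∧
              l.prod = (f x)⁻¹ * y) := by
  obtain ⟨f, L, Cc, h1, h2, h3⟩ := qi taG taH
  have fG := gens_finite taG.toTG
  have fH := gens_finite taH.toTG
  refine ⟨fG.toFinset, fH.toFinset, f, L, Cc, ?_, ?_, ?_, ?_, ?_⟩
  · rw [Set.Finite.coe_toFinset]; exact taG.gens_top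
  · rw [Set.Finite.coe_toFinset]; exact taH.gens_top
  · simp only [Set.Finite.mem_toFinset]
    exact h1
  · simp only [Set.Finite.mem_toFinset]
    exact h2
  · simp only [Set.Finite.mem_toFinset]
    exact h3

end Pool.Agent.W392.QI
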