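import Pool.Agent.W392.QI.Defs

set_option autoImplicit false
set_option linter.unusedSectionVars false
set_option linter.unusedSimpArgs false

/-! The matching is a bijection between the planes of the two systems. -/

namespace Pool.Agent.W392.QI

structure Good (s : St) : Prop where
  lo : 2 ≤ |s.mu|
  hi : |s.mu| ≤ 8
  cell0 : s.cell 0
  valid : ∀ n, s.cell n → Valid (shiftb s.b n)
  hidx_eq : ∀ n, s.cell n → hidx (shiftb s.b n) - hidx s.b = n
  ex_ok : ∀ e, s.ex = some e → Valid e.1 ∧ own e.1 ≠ some e.2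

theorem Good.vb {s : St} (h : Good s) : Valid s.b := by
  have := h.valid 0 h.cell0
  rwa [shiftb_zero] at this

theorem ph_role (s : St) (κ : KG) : (ph s κ).2.2 = sg (oo s κ) κ.2 := by
  by_cases h : overr s κ
  · obtain ⟨e, he, rfl⟩ := h
    rw [ph_of_ex he]
    rfl
  · rw [ph_of_not h]
    rfl

theorem ph_valid {s : St} (h : Good s) (κ : KG) :
    Valid (ph s κ).1 ∧ own (ph s κ).1 ≠ some (ph s κ).2 := by
  by_cases ho : overr s κ
  · obtain ⟨e, he, rfl⟩ := ho
    rw [ph_of_ex he]
    exact h.ex_ok e he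
  · rw [ph_of_not ho]
    refine ⟨h.vb, ?_⟩
    intro h'
    apply ncl_ne s.b κ
    dsimp only at h'
    rw [h']
    rfl

theorem TH_self (s : St) (κ : KG) : TH s κ κ.2 = 0 := by
  simp [TH, idxR_vecR]

theorem exOf_some {s : St} {l : LG} {t : Step CG} {e : LH × KH} (h : exOf s l t = some e) :
    (t.c, t.r) = kstar l ∧ t.d = t.r ∧ 1 ≤ t.i ∧ s.cell (decode (t.i - 1)).1 ∧
      own s.b ≠ some (decode (t.i - 1)).2 ∧
      ¬ ((decode (t.i - 1)).1 = 0 ∧ used l s (decode (t.i - 1)).2) ∧
      e = (shiftb s.b (decode (t.i - 1)).1, (decode (t.i - 1)).2) := by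
  unfold exOf at h
  split_ifs at h with h1
  · obtain ⟨a1, a2, a3, a4, a5, a6⟩ := h1
    exact ⟨a1, a2, a3, a4, a5, a6, (Option.some.inj h).symm⟩

theorem slo_ok {s : St} (h : Good s) (κ : KG) (d : Role) : 1 ≤ |KK s κ d| ∧ |KK s κ d| ≤ 8 :=
  slo_rng (optOf_rng κ h.lo h.hi) d

theorem good_st : ∀ (l : LG), Valid l → Good (st l)
  | [], _ => by
    refine ⟨?_, ?_, rfl, ?_, ?_, ?_⟩
    · show 2 ≤ |(2 : ℝ)|
      norm_num
    · show |(2 : ℝ)| ≤ 8
      norm_num
    · intro n hn
      exact trivial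
    · intro n hn
      have : n = 0 := hn
      subst this
      rfl
    · intro e he
      exact absurd he (by simp [st])
  | t :: l, hv => by
    have g := good_st l hv.1
    have hK := slo_ok g (t.c, t.r) t.d
    have hp := ph_valid g (t.c, t.r)
    refine ⟨(lev_rng (optOf_rng (t.c, t.r) g.lo g.hi) t.d).1,
      (lev_rng (optOf_rng (t.c, t.r) g.lo g.hi) t.d).2, ?_, ?_, ?_, ?_⟩
    · show I _ _ (J _ _ t.i + 0) = t.i
      rw [add_zero, I_J hK.1]
    · intro n hn
      refine ⟨hp.1, hp.2, ?_⟩
      rintro ⟨h1, h2⟩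
      dsimp only at h1 h2
      rw [ph_role] at h1
      have h3 : t.d = t.r := sg_inj h1
      apply hv.2.2
      refine ⟨h3, ?_⟩
      have hn' : I (KK (st l) (t.c, t.r) t.d) (TH (st l) (t.c, t.r) t.d)
        (J (KK (st l) (t.c, t.r) t.d) (TH (st l) (t.c, t.r) t.d) t.i + n) = t.i := hn
      rw [h2] at hn'
      have h4 : TH (st l) (t.c, t.r) t.d = 0 := by
        rw [h3]; exact TH_self (st l) (t.c, t.r)
      rw [h4] at hn'
      have h5 : J (KK (st l) (t.c, t.r) t.d) 0 0 = 0 := by rw [J_zero]; simp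
      have h6 := I_J hK.1 0 0
      rw [h5] at h6
      rw [← hn', h6]
    · intro n hn
      show _ + n - _ = n
      show (J _ _ t.i + n) - (J _ _ t.i) = n
      ring
    · intro e he
      have he' : exOf (st l) l t = some e := he
      obtain ⟨a1, a2, a3, a4, a5, a6, a7⟩ := exOf_some he'
      rw [a7]
      refine ⟨g.valid _ a4, ?_⟩
      rw [own_shiftb]
      exact a5

theorem overr_E {s : St} {l : LG} {t : Step CG} {r : Role} {e : LH × KH}
    (h : (child s l t).ex = some e) : own (t :: l) ≠ some (CG.V, r) := by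
  have h' : exOf s l t = some e := h
  obtain ⟨a1, -⟩ := exOf_some h'
  have h2 := kstar_fst l
  rw [← a1] at h2
  intro h3
  simp only [own, Option.some.injEq, Prod.mk.injEq] at h3
  rw [h3.1] at h2
  exact absurd h2 (by simp)

theorem used_unique {l : LG} {s : St} {κH : KH} {κ κ' : KG} (h : nat s κ = κH)
    (h' : nat s κ' = κH) : κ = κ' := by
  rw [← h'] at h
  exact ncl_inj s.b (congrArg Prod.fst h)

theorem plane_used {l : LG} {b : LH} {κ : KG} (hb : hidx b - hidx (st l).b = 0)
    (h1 : own l ≠ some κ) (h2 : ¬ overr (st l) κ) : plane l b (nat (st l) κ) = (l, κ) := by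
  unfold plane
  have hu : hidx b - hidx (st l).b = 0 ∧ used l (st l) (nat (st l) κ) := ⟨hb, κ, h1, h2, rfl⟩
  rw [dif_pos hu]
  have := Classical.choose_spec hu.2
  congr 1
  exact used_unique (l := l) this.2.2 rfl

theorem plane_not {l : LG} {b : LH} {κH : KH} {n : ℤ} (hb : hidx b - hidx (st l).b = n)
    (h : ¬ (n = 0 ∧ used l (st l) κH)) :
    plane l b κH = (⟨(kstar l).1, (kstar l).2, (kstar l).2, code (n, κH) + 1⟩ :: l,
      (CG.V, κH.2)) := by
  subst hb
  unfold plane
  rw [dif_neg h]

theorem psi_child {s : St} {l : LG} {t : Step CG} (hs : s = st l) {n : ℤ}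
    (hn : (child s l t).cell n)
    (hB : plane (psi (ph s (t.c, t.r)).1) (ph s (t.c, t.r)).1 (ph s (t.c, t.r)).2 =
      (l, (t.c, t.r))) :
    psi (shiftb (child s l t).b n) = t :: l := by
  subst hs
  show psi (_ :: _) = _
  simp only [psi]
  rw [show (((ph (st l) (t.c, t.r)).2.1, (ph (st l) (t.c, t.r)).2.2) : KH) =
    (ph (st l) (t.c, t.r)).2 from rfl, hB]
  dsimp only
  rw [sg_sg]
  have hn' : I (KK (st l) (t.c, t.r) t.d) (TH (st l) (t.c, t.r) t.d)
        (J (KK (st l) (t.c, t.r) t.d) (TH (st l) (t.c, t.r) t.d) t.i + n) = t.i := hn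
  rw [hn']

theorem AB : ∀ (l : LG), Valid l →
    (∀ n, (st l).cell n → psi (shiftb (st l).b n) = l) ∧
    (∀ κ : KG, own l ≠ some κ →
      plane (psi (ph (st l) κ).1) (ph (st l) κ).1 (ph (st l) κ).2 = (l, κ))
  | [], _ => by
    have hA : ∀ n, (st []).cell n → psi (shiftb (st []).b n) = [] := by
      intro n _
      rfl
    refine ⟨hA, ?_⟩
    intro κ hκ
    have hno : ¬ overr (st []) κ := by
      rintro ⟨e, he, -⟩
      exact absurd he (by simp [st])
    rw [ph_of_not hno]
    exact plane_used (l := []) (b := (st []).b) (by simp) hκ hno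
  | t :: l, hv => by
    obtain ⟨ihA, ihB⟩ := AB l hv.1
    have g := good_st l hv.1
    have g' := good_st (t :: l) hv
    have hB0 := ihB (t.c, t.r) hv.2.1
    have hA : ∀ n, (st (t :: l)).cell n → psi (shiftb (st (t :: l)).b n) = t :: l := by
      intro n hn
      exact psi_child rfl hn hB0
    refine ⟨hA, ?_⟩
    intro κ hκ
    by_cases ho : overr (st (t :: l)) κ
    · obtain ⟨e, he, rfl⟩ := ho
      rw [ph_of_ex he]
      have he' : exOf (st l) l t = some e := he
      obtain ⟨a1, a2, a3, a4, a5, a6, a7⟩ := exOf_some he'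
      have h1 : psi e.1 = l := by
        rw [a7]
        exact ihA _ a4
      rw [h1]
      have h2 : hidx e.1 - hidx (st l).b = (decode (t.i - 1)).1 := by
        rw [a7]
        exact g.hidx_eq _ a4
      have h3 : e.2 = (decode (t.i - 1)).2 := by rw [a7]
      rw [plane_not h2 (by rw [h3]; exact a6), h3]
      have h4 : code ((decode (t.i - 1)).1, (decode (t.i - 1)).2) = t.i - 1 :=
        code_decode (by omega)
      rw [h4, ← h3]
      have h5 : (kstar l).1 = t.c := by rw [← a1]
      have h6 : (kstar l).2 = t.r := by rw [← a1]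
      rw [h5, h6]
      have h7 : (⟨t.c, t.r, t.r, t.i - 1 + 1⟩ : Step CG) = t := by
        rw [sub_add_cancel]
        cases t
        dsimp only at a2
        rw [a2]
      rw [h7]
    · rw [ph_of_not ho]
      dsimp only
      have h1 : psi (st (t :: l)).b = t :: l := by
        have := hA 0 g'.cell0
        rwa [shiftb_zero] at this
      rw [h1]
      exact plane_used (by simp) hκ ho

theorem psi_b {l : LG} (hv : Valid l) : psi (st l).b = l := by
  have := (AB l hv).1 0 (good_st l hv).cell0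
  rwa [shiftb_zero] at this

/-- the matched plane on the `G` side -/
theorem plane_spec {l : LG} (hv : Valid l) {b : LH} {n : ℤ} (hn : (st l).cell n)
    (hb : b = shiftb (st l).b n) {κH : KH} (hκ : own b ≠ some κH) :
    Valid (plane l b κH).1 ∧ own (plane l b κH).1 ≠ some (plane l b κH).2 ∧
      ph (st (plane l b κH).1) (plane l b κH).2 = (b, κH) := by
  have g := good_st l hv
  have hidx' : hidx b - hidx (st l).b = n := by rw [hb]; exact g.hidx_eq n hn
  by_cases hu : hidx b - hidx (st l).b = 0 ∧ used l (st l) κH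
  · obtain ⟨κ, k1, k2, k3⟩ := hu.2
    have h1 : plane l b κH = (l, κ) := by
      rw [← k3]
      exact plane_used hu.1 k1 k2
    rw [h1]
    refine ⟨hv, k1, ?_⟩
    dsimp only
    rw [ph_of_not k2, k3]
    have : n = 0 := by rw [← hidx']; exact hu.1
    rw [hb, this, shiftb_zero]
  · rw [hidx'] at hu
    have h1 := plane_not hidx' hu
    rw [h1]
    dsimp only
    have hc := code_nonneg (n, κH)
    refine ⟨⟨hv, ?_, ?_⟩, ?_, ?_⟩
    · exact kstar_ne l
    · dsimp only
      omega
    · have h2 := kstar_fst l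
      intro h3
      simp only [own, Option.some.injEq, Prod.mk.injEq] at h3
      rw [h3.1] at h2
      exact absurd h2 (by simp)
    · have hex : (st (⟨(kstar l).1, (kstar l).2, (kstar l).2, code (n, κH) + 1⟩ :: l)).ex =
          some (b, κH) := by
        show exOf (st l) l _ = _
        unfold exOf
        have e1 : decode (code (n, κH) + 1 - 1) = (n, κH) := by
          rw [add_sub_cancel_right, decode_code]
        dsimp only
        rw [e1, if_pos, hb]
        refine ⟨rfl, rfl, by omega, hn, ?_, hu⟩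
        rw [hb, own_shiftb] at hκ
        exact hκ
      exact ph_of_ex hex

theorem psi_spec : ∀ (b : LH), Valid b → Valid (psi b) ∧
    ∃ n, (st (psi b)).cell n ∧ b = shiftb (st (psi b)).b n
  | [], _ => ⟨trivial, 0, rfl, rfl⟩
  | t :: b, hv => by
    obtain ⟨v, n, hn, hb⟩ := psi_spec b hv.1
    obtain ⟨p1, p2, p3⟩ := plane_spec v hn hb hv.2.1
    have g := good_st _ p1
    set π := plane (psi b) b (t.c, t.r) with hπ
    have hK := slo_ok g π.2 (sg (oo (st π.1) π.2) t.d)
    have hrole : t.r = sg (oo (st π.1) π.2) π.2.2 := by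
      have := ph_role (st π.1) π.2
      rw [p3] at this
      exact this
    refine ⟨⟨p1, p2, ?_⟩, t.i - J (KK (st π.1) π.2 (sg (oo (st π.1) π.2) t.d))
      (TH (st π.1) π.2 (sg (oo (st π.1) π.2) t.d))
      (I (KK (st π.1) π.2 (sg (oo (st π.1) π.2) t.d))
        (TH (st π.1) π.2 (sg (oo (st π.1) π.2) t.d)) t.i), ?_, ?_⟩
    · rintro ⟨h1, h2⟩
      dsimp only at h1 h2
      have h3 : t.d = t.r := by
        rw [hrole, ← h1, sg_sg]
      apply hv.2.2
      refine ⟨h3, ?_⟩
      have h4 := I_zero hK.1 _ h2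
      rw [h1, TH_self, J_zero] at h4
      rw [h4]
      simp
    · show I _ _ (J _ _ (I _ _ t.i) + (t.i - J _ _ (I _ _ t.i))) = I _ _ t.i
      rw [add_sub_cancel]
    · show t :: b = shiftb (child (st π.1) π.1 _).b _
      simp only [child, shiftb]
      rw [show ((π.2.1, π.2.2) : KG) = π.2 from rfl, p3]
      dsimp only
      rw [add_sub_cancel, sg_sg]

end Pool.Agent.W392.QI
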