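import Mathlib

set_option autoImplicit false

/-! Rounding maps between indices. -/

namespace Pool.Agent.W392.QI

noncomputable def J (K θ : ℝ) (i : ℤ) : ℤ := ⌊K * i + θ⌋

noncomputable def Ip (K θ : ℝ) (j : ℤ) : ℤ :=
  if ⌊θ⌋ < j then ⌈((j : ℝ) - θ) / K⌉
  else if j < ⌊θ⌋ then ⌈((j : ℝ) + 1 - θ) / K⌉ - 1 else 0

noncomputable def I (K θ : ℝ) (j : ℤ) : ℤ := if 0 < K then Ip K θ j else - Ip (-K) θ j

theorem J_zero (K θ : ℝ) : J K θ 0 = ⌊θ⌋ := by simp [J]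

theorem Ip_J {K : ℝ} (hK : 1 ≤ K) (θ : ℝ) (i : ℤ) : Ip K θ ⌊K * i + θ⌋ = i := by
  have hK0 : 0 < K := by linarith
  have h1 : (⌊K * i + θ⌋ : ℝ) ≤ K * i + θ := Int.floor_le _
  have h2 : K * i + θ < ⌊K * i + θ⌋ + 1 := Int.lt_floor_add_one _
  rcases lt_trichotomy i 0 with hi | hi | hi
  · have hi' : (i : ℝ) ≤ -1 := by exact_mod_cast (by omega : i ≤ -1)
    have h3 : ⌊K * i + θ⌋ < ⌊θ⌋ := by
      have : ⌊K * i + θ⌋ ≤ ⌊θ - 1⌋ := Int.floor_le_floor (by nlinarith)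
      rw [Int.floor_sub_one] at this
      omega
    unfold Ip
    rw [if_neg (by omega), if_pos h3]
    have h4 : ⌈((⌊K * i + θ⌋ : ℝ) + 1 - θ) / K⌉ = i + 1 := by
      rw [Int.ceil_eq_iff]
      constructor
      · push_cast
        rw [lt_div_iff₀ hK0]
        nlinarith
      · push_cast
        rw [div_le_iff₀ hK0]
        nlinarith
    rw [h4]; ring
  · subst hi
    simp [Ip]
  · have hi' : (1 : ℝ) ≤ i := by exact_mod_cast (by omega : 1 ≤ i)
    have h3 : ⌊θ⌋ < ⌊K * i + θ⌋ := by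
      have : ⌊θ + 1⌋ ≤ ⌊K * i + θ⌋ := Int.floor_le_floor (by nlinarith)
      rw [Int.floor_add_one] at this
      omega
    unfold Ip
    rw [if_pos h3, Int.ceil_eq_iff]
    constructor
    · rw [lt_div_iff₀ hK0]
      nlinarith
    · rw [div_le_iff₀ hK0]
      nlinarith

theorem Ip_close {K : ℝ} (hK : 1 ≤ K) (θ : ℝ) (j : ℤ) : |K * Ip K θ j + θ - j| ≤ K + 1 := by
  have hK0 : 0 < K := by linarith
  unfold Ip
  split_ifs with h1 h2
  · have h3 := Int.le_ceil (((j : ℝ) - θ) / K)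
    have h4 := Int.ceil_lt_add_one (((j : ℝ) - θ) / K)
    rw [div_le_iff₀ hK0] at h3
    rw [← sub_lt_iff_lt_add, lt_div_iff₀ hK0] at h4
    rw [abs_le]
    constructor <;> nlinarith
  · push_cast
    have h3 := Int.le_ceil (((j : ℝ) + 1 - θ) / K)
    have h4 := Int.ceil_lt_add_one (((j : ℝ) + 1 - θ) / K)
    rw [div_le_iff₀ hK0] at h3
    rw [← sub_lt_iff_lt_add, lt_div_iff₀ hK0] at h4
    rw [abs_le]
    constructor <;> nlinarith
  · have h3 : j = ⌊θ⌋ := by omega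
    subst h3
    have h4 := Int.floor_le θ
    have h5 := Int.lt_floor_add_one θ
    rw [abs_le]
    push_cast
    constructor <;> nlinarith

theorem Ip_zero {K : ℝ} (hK : 1 ≤ K) (θ : ℝ) {j : ℤ} (h : Ip K θ j = 0) : j = ⌊θ⌋ := by
  have hK0 : 0 < K := by linarith
  unfold Ip at h
  split_ifs at h with h1 h2
  · exfalso
    have h3 : θ < j := by
      have : (⌊θ⌋ : ℝ) + 1 ≤ j := by exact_mod_cast h1
      linarith [Int.lt_floor_add_one θ]
    have h4 := Int.le_ceil (((j : ℝ) - θ) / K)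
    rw [h] at h4
    have : 0 < ((j : ℝ) - θ) / K := div_pos (by linarith) hK0
    push_cast at h4
    linarith
  · exfalso
    have h3 : (j : ℝ) + 1 ≤ θ := by
      have : (j : ℝ) + 1 ≤ ⌊θ⌋ := by exact_mod_cast h2
      linarith [Int.floor_le θ]
    have h5 : ⌈((j : ℝ) + 1 - θ) / K⌉ = 1 := by omega
    have h4 := Int.ceil_lt_add_one (((j : ℝ) + 1 - θ) / K)
    rw [h5] at h4
    have : ((j : ℝ) + 1 - θ) / K ≤ 0 := div_nonpos_of_nonpos_of_nonneg (by linarith) hK0.le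
    push_cast at h4
    linarith
  · omega

theorem I_J {K : ℝ} (hK : 1 ≤ |K|) (θ : ℝ) (i : ℤ) : I K θ (J K θ i) = i := by
  unfold I J
  split_ifs with h
  · rw [abs_of_pos h] at hK
    exact Ip_J hK θ i
  · have h' : K ≤ 0 := not_lt.mp h
    rw [abs_of_nonpos h'] at hK
    have := Ip_J hK θ (-i)
    push_cast at this
    rw [neg_mul_neg] at this
    rw [this, neg_neg]

theorem I_close {K : ℝ} (hK : 1 ≤ |K|) (θ : ℝ) (j : ℤ) : |K * I K θ j + θ - j| ≤ |K| + 1 := by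
  unfold I
  split_ifs with h
  · rw [abs_of_pos h] at hK ⊢
    exact Ip_close hK θ j
  · have h' : K ≤ 0 := not_lt.mp h
    rw [abs_of_nonpos h'] at hK ⊢
    have := Ip_close hK θ j
    push_cast
    rw [mul_neg, ← neg_mul]
    exact this

theorem I_zero {K : ℝ} (hK : 1 ≤ |K|) (θ : ℝ) {j : ℤ} (h : I K θ j = 0) : j = J K θ 0 := by
  rw [J_zero]
  unfold I at h
  split_ifs at h with h1
  · rw [abs_of_pos h1] at hK
    exact Ip_zero hK θ h
  · have h' : K ≤ 0 := not_lt.mp h1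
    rw [abs_of_nonpos h'] at hK
    exact Ip_zero hK θ (neg_eq_zero.mp h)

theorem J_close (K θ : ℝ) (i : ℤ) : |(J K θ i : ℝ) - (K * i + θ)| ≤ 1 := by
  have h1 : (⌊K * i + θ⌋ : ℝ) ≤ K * i + θ := Int.floor_le _
  have h2 : K * i + θ < ⌊K * i + θ⌋ + 1 := Int.lt_floor_add_one _
  unfold J
  rw [abs_le]
  constructor <;> linarith

theorem J_inj {K : ℝ} (hK : 1 ≤ |K|) (θ : ℝ) {i i' : ℤ} (h : J K θ i = J K θ i') : i = i' := by
  rw [← I_J hK θ i, h, I_J hK θ i']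

end Pool.Agent.W392.QI
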