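import Pool.Agent.W392.QI.Grp
import Pool.Agent.W392.QI.Idx

set_option autoImplicit false
set_option linter.unusedSectionVars false
set_option linter.unusedSimpArgs false

/-! The two tubular systems and the matching between them: definitions. -/

namespace Pool.Agent.W392.QI

inductive CG | V | E
  deriving DecidableEq

instance : Fintype CG := ⟨{CG.V, CG.E}, by intro x; cases x <;> simp⟩

abbrev CH := Fin 7

def vecV : Role → ℤ × ℤ
  | .r0 => (1, 0) | .r1 => (0, 1) | .r2 => (-1, 2)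
def repV : Role → ℤ → ℤ × ℤ
  | .r0, i => (0, i) | .r1, i => (i, 0) | .r2, i => (0, i)
def idxV : Role → ℤ × ℤ → ℤ
  | .r0, x => x.2 | .r1, x => x.1 | .r2, x => x.2 + 2 * x.1
def verV : Role → ℤ × ℤ → ℤ
  | .r0, x => x.1 | .r1, x => x.2 | .r2, x => - x.1

def vecE : Role → ℤ × ℤ
  | .r0 => (2, 0) | .r1 => (0, 1) | .r2 => (3, -1)
def repE : Role → ℤ → ℤ × ℤ
  | .r0, i => (i % 2, i / 2) | .r1, i => (i, 0) | .r2, i => (i, 0)
def idxE : Role → ℤ × ℤ → ℤ
  | .r0, x => 2 * x.2 + x.1 % 2 | .r1, x => x.1 | .r2, x => x.1 + 3 * x.2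
def verE : Role → ℤ × ℤ → ℤ
  | .r0, x => x.1 / 2 | .r1, x => x.2 | .r2, x => - x.2

theorem decompV (r : Role) (x : ℤ × ℤ) : repV r (idxV r x) + sm (verV r x) (vecV r) = x := by
  obtain ⟨a, b⟩ := x
  cases r <;> simp [repV, idxV, verV, vecV, sm] <;> ring

theorem decompE (r : Role) (x : ℤ × ℤ) : repE r (idxE r x) + sm (verE r x) (vecE r) = x := by
  obtain ⟨a, b⟩ := x
  cases r
  · simp only [repE, idxE, verE, vecE, sm, Prod.mk_add_mk, Prod.mk.injEq]
    omega
  · simp [repE, idxE, verE, vecE, sm]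
  · simp [repE, idxE, verE, vecE, sm]
    ring

theorem idxV_eq (r : Role) (i s : ℤ) : idxV r (repV r i + sm s (vecV r)) = i := by
  cases r <;> simp [repV, idxV, verV, vecV, sm] <;> ring

theorem verV_eq (r : Role) (i s : ℤ) : verV r (repV r i + sm s (vecV r)) = s := by
  cases r <;> simp [repV, idxV, verV, vecV, sm]

theorem idxE_eq (r : Role) (i s : ℤ) : idxE r (repE r i + sm s (vecE r)) = i := by
  cases r
  · simp only [repE, idxE, verE, vecE, sm, Prod.mk_add_mk]
    omega
  · simp [repE, idxE, verE, vecE, sm]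
  · simp [repE, idxE, verE, vecE, sm]
    ring

theorem verE_eq (r : Role) (i s : ℤ) : verE r (repE r i + sm s (vecE r)) = s := by
  cases r
  · simp only [repE, idxE, verE, vecE, sm, Prod.mk_add_mk]
    omega
  · simp [repE, idxE, verE, vecE, sm]
  · simp [repE, idxE, verE, vecE, sm]

def SG : Sys CG where
  base c := match c with | .V => .r0 | .E => .r1
  vec c := match c with | .V => vecV | .E => vecE
  rep c := match c with | .V => repV | .E => repE
  idx c := match c with | .V => idxV | .E => idxE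
  ver c := match c with | .V => verV | .E => verE
  decomp c r x := by cases c; exacts [decompV r x, decompE r x]
  idx_eq c r i s := by cases c; exacts [idxV_eq r i s, idxE_eq r i s]
  ver_eq c r i s := by cases c; exacts [verV_eq r i s, verE_eq r i s]
  rep_zero c r := by cases c <;> cases r <;> simp [repV, repE]

def SH : Sys CH where
  base _ := .r0
  vec _ := vecV
  rep _ := repV
  idx _ := idxV
  ver _ := verV
  decomp _ r x := decompV r x
  idx_eq _ r i s := idxV_eq r i s
  ver_eq _ r i s := verV_eq r i s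
  rep_zero _ r := by cases r <;> simp [repV]

/-! ### Options -/

inductive Opt | V | A | B | C
  deriving DecidableEq

def sg : Opt → Role → Role
  | .V, r => r
  | .A, .r0 => .r1
  | .A, .r1 => .r0
  | .A, .r2 => .r2
  | .B, r => r
  | .C, .r0 => .r0
  | .C, .r1 => .r2
  | .C, .r2 => .r1

theorem sg_sg (o : Opt) (r : Role) : sg o (sg o r) = r := by
  cases o <;> cases r <;> rfl

theorem sg_inj {o : Opt} {r r' : Role} (h : sg o r = sg o r') : r = r' := by
  rw [← sg_sg o r, h, sg_sg]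

noncomputable def lev : Opt → Role → ℝ
  | .V, _ => 1
  | .A, .r0 => 4 / 3
  | .A, .r1 => 1
  | .A, .r2 => 1
  | .B, .r0 => 2 / 3
  | .B, .r1 => 2
  | .B, .r2 => -1
  | .C, .r0 => 2 / 3
  | .C, .r1 => -1
  | .C, .r2 => 2

noncomputable def slo : Opt → Role → ℝ
  | .V, _ => 1
  | .A, .r0 => 1 / 2
  | .A, .r1 => 2 / 3
  | .A, .r2 => 2 / 3
  | .B, .r0 => 1
  | .B, .r1 => 1 / 3
  | .B, .r2 => 2 / 3
  | .C, .r0 => -1
  | .C, .r1 => 2 / 3
  | .C, .r2 => 1 / 3

/-- range of the parameter -/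
def Rng : Opt → ℝ → Prop
  | .V, k => 2 ≤ |k| ∧ |k| ≤ 8
  | .A, k => 2 ≤ |k| ∧ |k| ≤ 6
  | .B, k => 3 ≤ |k| ∧ |k| ≤ 4
  | .C, k => 3 ≤ |k| ∧ |k| ≤ 4

noncomputable def optOf : CG × Role → ℝ → Opt × ℝ
  | (.V, _), μ => (.V, μ)
  | (.E, .r0), μ => if 8 / 3 ≤ |μ| then (.A, 3 / 4 * μ) else (.B, 3 / 2 * μ)
  | (.E, .r1), μ => if |μ| ≤ 6 then (.A, μ) else (.B, μ / 2)
  | (.E, .r2), μ => if |μ| ≤ 6 then (.A, μ) else (.C, μ / 2)

theorem optOf_rng (κ : CG × Role) {μ : ℝ} (h1 : 2 ≤ |μ|) (h2 : |μ| ≤ 8) :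
    Rng (optOf κ μ).1 (optOf κ μ).2 := by
  obtain ⟨c, r⟩ := κ
  cases c
  · exact ⟨h1, h2⟩
  · cases r
    · simp only [optOf]
      split_ifs with h
      · simp only [Rng, abs_mul, abs_of_pos (by norm_num : (0 : ℝ) < 3 / 4)]
        constructor <;> linarith
      · simp only [Rng, abs_mul, abs_of_pos (by norm_num : (0 : ℝ) < 3 / 2)]
        constructor <;> linarith
    · simp only [optOf]
      split_ifs with h
      · exact ⟨h1, h⟩
      · simp only [Rng, abs_div, abs_of_pos (by norm_num : (0 : ℝ) < 2)]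
        constructor <;> linarith
    · simp only [optOf]
      split_ifs with h
      · exact ⟨h1, h⟩
      · simp only [Rng, abs_div, abs_of_pos (by norm_num : (0 : ℝ) < 2)]
        constructor <;> linarith

theorem optOf_lev (κ : CG × Role) (μ : ℝ) :
    lev (optOf κ μ).1 κ.2 * (optOf κ μ).2 = μ := by
  obtain ⟨c, r⟩ := κ
  cases c
  · simp [optOf, lev]
  · cases r <;> simp only [optOf] <;> split_ifs <;> simp [lev] <;> ring

theorem lev_rng {o : Opt} {k : ℝ} (h : Rng o k) (d : Role) :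
    2 ≤ |lev o d * k| ∧ |lev o d * k| ≤ 8 := by
  rw [abs_mul]
  cases o <;> cases d <;> simp only [Rng] at h <;> obtain ⟨h1, h2⟩ := h <;>
    simp only [lev, abs_neg, abs_one] <;>
    first
    | (constructor <;> linarith)
    | (rw [abs_of_pos (by norm_num : (0:ℝ) < _)]; constructor <;> linarith)

theorem slo_rng {o : Opt} {k : ℝ} (h : Rng o k) (d : Role) :
    1 ≤ |slo o d * k| ∧ |slo o d * k| ≤ 8 := by
  rw [abs_mul]
  cases o <;> cases d <;> simp only [Rng] at h <;> obtain ⟨h1, h2⟩ := h <;>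
    simp only [slo, abs_neg, abs_one] <;>
    first
    | (constructor <;> linarith)
    | (rw [abs_of_pos (by norm_num)]; constructor <;> linarith)

noncomputable def vecR : Role → ℝ × ℝ
  | .r0 => (1, 0) | .r1 => (0, 1) | .r2 => (-1, 2)
def idxR : Role → ℝ × ℝ → ℝ
  | .r0, x => x.2 | .r1, x => x.1 | .r2, x => x.2 + 2 * x.1
def verR : Role → ℝ × ℝ → ℝ
  | .r0, x => x.1 | .r1, x => x.2 | .r2, x => - x.1

theorem idxR_vecR (r : Role) : idxR r (vecR r) = 0 := by cases r <;> simp [idxR, vecR]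
theorem verR_vecR (r : Role) : verR r (vecR r) = 1 := by cases r <;> simp [verR, vecR]

noncomputable def matA : Opt → ℝ → ℝ × ℝ → ℝ × ℝ
  | .V, k, x => (k * x.1, k * x.2)
  | .A, k, x => (k * x.2, 2 * k / 3 * x.1)
  | .B, k, x => (k / 3 * x.1, 2 * k * x.2)
  | .C, k, x => (k / 3 * x.1 + k * x.2, - (2 * k * x.2))

def toR (x : ℤ × ℤ) : ℝ × ℝ := ((x.1 : ℝ), (x.2 : ℝ))

/-! ### The state -/

abbrev LG := List (Step CG)
abbrev LH := List (Step CH)
abbrev KG := CG × Role
abbrev KH := CH × Role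

structure St where
  b : LH
  mu : ℝ
  y : ℝ
  ex : Option (LH × KH)
  cell : ℤ → Prop

def num : KG → CH
  | (.V, .r0) => 0 | (.V, .r1) => 1 | (.V, .r2) => 2
  | (.E, .r0) => 3 | (.E, .r1) => 4 | (.E, .r2) => 5

theorem num_inj : Function.Injective num := by
  rintro ⟨a, b⟩ ⟨c, d⟩ h
  cases a <;> cases b <;> cases c <;> cases d <;> first | rfl | (simp [num] at h)

theorem num_ne (κ : KG) : num κ ≠ 6 := by
  obtain ⟨a, b⟩ := κ
  cases a <;> cases b <;> decide

def ncl (b : LH) (κ : KG) : CH := if (own b).map Prod.fst = some (num κ) then 6 else num κ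

theorem ncl_ne (b : LH) (κ : KG) : (own b).map Prod.fst ≠ some (ncl b κ) := by
  unfold ncl
  split_ifs with h
  · rw [h]
    intro h'
    exact num_ne κ (Option.some.inj h')
  · exact h

theorem ncl_inj (b : LH) {κ κ' : KG} (h : ncl b κ = ncl b κ') : κ = κ' := by
  unfold ncl at h
  split_ifs at h with h1 h2 h2
  · rw [h1] at h2
    exact num_inj (Option.some.inj h2)
  · exact absurd h.symm (num_ne κ')
  · exact absurd h (num_ne κ)
  · exact num_inj h

noncomputable def oo (s : St) (κ : KG) : Opt := (optOf κ s.mu).1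
noncomputable def kk (s : St) (κ : KG) : ℝ := (optOf κ s.mu).2
noncomputable def KK (s : St) (κ : KG) (d : Role) : ℝ := slo (oo s κ) d * kk s κ
noncomputable def TH (s : St) (κ : KG) (d : Role) : ℝ :=
  s.y * idxR (sg (oo s κ) d) (vecR (sg (oo s κ) κ.2))
noncomputable def YY (s : St) (κ : KG) (d : Role) (i : ℤ) : ℝ :=
  verR (sg (oo s κ) d) (matA (oo s κ) (kk s κ) (toR (SG.rep κ.1 d i))) +
    s.y * verR (sg (oo s κ) d) (vecR (sg (oo s κ) κ.2))
noncomputable def LV (s : St) (κ : KG) (d : Role) : ℝ := lev (oo s κ) d * kk s κ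

/-- the native partner of a kind -/
noncomputable def nat (s : St) (κ : KG) : KH := (ncl s.b κ, sg (oo s κ) κ.2)

def overr (s : St) (κ : KG) : Prop := ∃ e, s.ex = some e ∧ κ = (CG.V, e.2.2)

open Classical in
/-- the plane matched with the plane of kind `κ` at the hub -/
noncomputable def ph (s : St) (κ : KG) : LH × KH :=
  match s.ex with
  | some e => if κ = (CG.V, e.2.2) then e else (s.b, nat s κ)
  | none => (s.b, nat s κ)

theorem ph_of_not {s : St} {κ : KG} (h : ¬ overr s κ) : ph s κ = (s.b, nat s κ) := by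
  unfold ph
  cases he : s.ex with
  | none => rfl
  | some e =>
    have : κ ≠ (CG.V, e.2.2) := fun h' => h ⟨e, he, h'⟩
    simp [this]

theorem ph_of_ex {s : St} {e : LH × KH} (h : s.ex = some e) : ph s (CG.V, e.2.2) = e := by
  unfold ph
  rw [h]
  simp

def kstar (l : LG) : KG := if own l = some (CG.E, Role.r1) then (CG.E, Role.r2) else (CG.E, Role.r1)

theorem kstar_ne (l : LG) : own l ≠ some (kstar l) := by
  unfold kstar
  split_ifs with h
  · rw [h]; simp
  · exact h

theorem kstar_fst (l : LG) : (kstar l).1 = CG.E := by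
  unfold kstar
  split_ifs <;> rfl

def used (l : LG) (s : St) (κH : KH) : Prop :=
  ∃ κ : KG, own l ≠ some κ ∧ ¬ overr s κ ∧ nat s κ = κH

def shiftb : LH → ℤ → LH
  | [], _ => []
  | t :: b, n => ⟨t.c, t.r, t.d, t.i + n⟩ :: b

def hidx : LH → ℤ
  | [] => 0
  | t :: _ => t.i

theorem own_shiftb (b : LH) (n : ℤ) : own (shiftb b n) = own b := by
  cases b <;> rfl

theorem shiftb_zero (b : LH) : shiftb b 0 = b := by
  cases b <;> simp [shiftb]

noncomputable def codeE : ℤ × KH ≃ ℕ := (nonempty_equiv_of_countable).some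

noncomputable def code (x : ℤ × KH) : ℤ := (codeE x : ℤ)
noncomputable def decode (n : ℤ) : ℤ × KH := codeE.symm n.toNat

theorem decode_code (x : ℤ × KH) : decode (code x) = x := by simp [decode, code]
theorem code_decode {n : ℤ} (h : 0 ≤ n) : code (decode n) = n := by
  simp [decode, code, Int.toNat_of_nonneg h]
theorem code_nonneg (x : ℤ × KH) : 0 ≤ code x := by simp [code]

open Classical in
noncomputable def exOf (s : St) (l : LG) (t : Step CG) : Option (LH × KH) :=
  if (t.c, t.r) = kstar l ∧ t.d = t.r ∧ 1 ≤ t.i ∧ s.cell (decode (t.i - 1)).1 ∧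
      own s.b ≠ some (decode (t.i - 1)).2 ∧
      ¬ ((decode (t.i - 1)).1 = 0 ∧ used l s (decode (t.i - 1)).2) then
    some (shiftb s.b (decode (t.i - 1)).1, (decode (t.i - 1)).2)
  else none

noncomputable def child (s : St) (l : LG) (t : Step CG) : St where
  b := ⟨(ph s (t.c, t.r)).2.1, (ph s (t.c, t.r)).2.2, sg (oo s (t.c, t.r)) t.d,
    J (KK s (t.c, t.r) t.d) (TH s (t.c, t.r) t.d) t.i⟩ :: (ph s (t.c, t.r)).1
  mu := LV s (t.c, t.r) t.d
  y := YY s (t.c, t.r) t.d t.i
  ex := exOf s l t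
  cell n := I (KK s (t.c, t.r) t.d) (TH s (t.c, t.r) t.d)
    (J (KK s (t.c, t.r) t.d) (TH s (t.c, t.r) t.d) t.i + n) = t.i

noncomputable def st : LG → St
  | [] => ⟨[], 2, 0, none, fun n => n = 0⟩
  | t :: l => child (st l) l t

open Classical in
noncomputable def plane (l : LG) (b : LH) (κH : KH) : LG × KG :=
  if h : hidx b - hidx (st l).b = 0 ∧ used l (st l) κH then (l, Classical.choose h.2)
  else (⟨(kstar l).1, (kstar l).2, (kstar l).2, code (hidx b - hidx (st l).b, κH) + 1⟩ :: l,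
    (CG.V, κH.2))

noncomputable def psi : LH → LG
  | [] => []
  | t :: b =>
    ⟨(plane (psi b) b (t.c, t.r)).2.1, (plane (psi b) b (t.c, t.r)).2.2,
      sg (oo (st (plane (psi b) b (t.c, t.r)).1) (plane (psi b) b (t.c, t.r)).2) t.d,
      I (KK (st (plane (psi b) b (t.c, t.r)).1) (plane (psi b) b (t.c, t.r)).2
          (sg (oo (st (plane (psi b) b (t.c, t.r)).1) (plane (psi b) b (t.c, t.r)).2) t.d))
        (TH (st (plane (psi b) b (t.c, t.r)).1) (plane (psi b) b (t.c, t.r)).2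
          (sg (oo (st (plane (psi b) b (t.c, t.r)).1) (plane (psi b) b (t.c, t.r)).2) t.d))
        t.i⟩ :: (plane (psi b) b (t.c, t.r)).1

end Pool.Agent.W392.QI
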