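import Pool.Agent.W392.QI.Metric2

set_option autoImplicit false
set_option linter.unusedSectionVars false
set_option linter.unusedSimpArgs false

/-! The quasi-isometry between two groups carrying the two systems. -/

namespace Pool.Agent.W392.QI

variable {ΓG ΓH : Type} [Group ΓG] [Group ΓH] (A : TA SG ΓG) (B : TA SH ΓH)

noncomputable def fmap (g : ΓG) : ΓH := B.nf (fX (A.ev g).1)
noncomputable def gmap (h : ΓH) : ΓG := A.nf (gX (B.ev h).1)

theorem Cl_diff {D E : ℝ} {x y : ℤ × ℤ} {v w : ℝ × ℝ} (hx : Cl D x v) (hy : Cl D y w)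
    (h1 : |w.1 - v.1| ≤ E) (h2 : |w.2 - v.2| ≤ E) (N : ℕ) (hN : 2 * D + E ≤ N) :
    |y.1 - x.1| ≤ (N : ℤ) ∧ |y.2 - x.2| ≤ (N : ℤ) := by
  obtain ⟨a1, a2⟩ := hx
  obtain ⟨b1, b2⟩ := hy
  rw [abs_le] at a1 a2 b1 b2 h1 h2
  have k1 : |(y.1 : ℝ) - x.1| ≤ N := by
    rw [abs_le]; constructor <;> linarith [a1.1, a1.2, b1.1, b1.2, h1.1, h1.2]
  have k2 : |(y.2 : ℝ) - x.2| ≤ N := by
    rw [abs_le]; constructor <;> linarith [a2.1, a2.2, b2.1, b2.2, h2.1, h2.2]
  constructor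
  · exact_mod_cast k1
  · exact_mod_cast k2

theorem FF_lip {s : St} (g : Good s) (κ : KG) {x y : ℤ × ℤ} (h1 : |y.1 - x.1| ≤ 1)
    (h2 : |y.2 - x.2| ≤ 1) :
    |(FF s κ y).1 - (FF s κ x).1| ≤ 16 ∧ |(FF s κ y).2 - (FF s κ x).2| ≤ 16 := by
  have h := matA_lip (optOf_rng κ g.lo g.hi) h1 h2
  unfold FF
  dsimp only
  rw [add_sub_add_right_eq_sub, add_sub_add_right_eq_sub]
  exact h

theorem FF_colip {s : St} (g : Good s) (κ : KG) {x y : ℤ × ℤ} {E : ℝ}
    (h1 : |(FF s κ y).1 - (FF s κ x).1| ≤ E) (h2 : |(FF s κ y).2 - (FF s κ x).2| ≤ E) :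
    |((y.1 - x.1 : ℤ) : ℝ)| ≤ 4 * E ∧ |((y.2 - x.2 : ℤ) : ℝ)| ≤ 4 * E := by
  unfold FF at h1 h2
  dsimp only at h1 h2
  rw [add_sub_add_right_eq_sub] at h1 h2
  exact matA_colip (optOf_rng κ g.lo g.hi) h1 h2

/-- two elements of a plane at neighbouring lattice points have near images -/
theorem f_plane {l : LG} (hv : Valid l) {κ : KG} (hκ : own l ≠ some κ) (d1 d2 : Role)
    {x1 x2 : ℤ × ℤ} (h1 : |x2.1 - x1.1| ≤ 1) (h2 : |x2.2 - x1.2| ≤ 1) :
    Near B.toTG.gens (NT + 78 + NT) (B.nf (fX (elem SG κ.1 (l, κ.2) d1 x1)))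
      (B.nf (fX (elem SG κ.1 (l, κ.2) d2 x2))) := by
  have g := good_st l hv
  obtain ⟨y1, c1, n1⟩ := fside (genOK_gens B.toTG) hv hκ d1 x1
  obtain ⟨y2, c2, n2⟩ := fside (genOK_gens B.toTG) hv hκ d2 x2
  obtain ⟨e1, e2⟩ := FF_lip g κ h1 h2
  obtain ⟨k1, k2⟩ := Cl_diff c1 c2 e1 e2 38 (by norm_num)
  exact (n1.trans (near_gel (genOK_gens B.toTG) _ _ _ _ _ _ _ 38 k1 k2)).trans n2.symm

theorem g_plane {b : LH} (hv : Valid b) {κH : KH} (hκ : own b ≠ some κH) (d1 d2 : Role)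
    {x1 x2 : ℤ × ℤ} (h1 : |x2.1 - x1.1| ≤ 1) (h2 : |x2.2 - x1.2| ≤ 1) :
    Near A.toTG.gens (NG + 538 + NG) (A.nf (gX (elem SH κH.1 (b, κH.2) d1 x1)))
      (A.nf (gX (elem SH κH.1 (b, κH.2) d2 x2))) := by
  obtain ⟨v, n, hn, hb⟩ := psi_spec b hv
  obtain ⟨p1, p2, p3⟩ := plane_spec v hn hb hκ
  have g := good_st _ p1
  obtain ⟨y1, c1, n1⟩ := gside (genOK_gens A.toTG) hv hκ d1 x1
  obtain ⟨y2, c2, n2⟩ := gside (genOK_gens A.toTG) hv hκ d2 x2
  have h1' : |(x2.1 : ℝ) - x1.1| ≤ 1 := by exact_mod_cast h1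
  have h2' : |(x2.2 : ℝ) - x1.2| ≤ 1 := by exact_mod_cast h2
  obtain ⟨a1, a2⟩ := c1
  obtain ⟨b1, b2⟩ := c2
  have e : |(FF (st (plane (psi b) b κH).1) (plane (psi b) b κH).2 y2).1 -
      (FF (st (plane (psi b) b κH).1) (plane (psi b) b κH).2 y1).1| ≤ 67 ∧
      |(FF (st (plane (psi b) b κH).1) (plane (psi b) b κH).2 y2).2 -
      (FF (st (plane (psi b) b κH).1) (plane (psi b) b κH).2 y1).2| ≤ 67 := by
    rw [abs_le] at a1 a2 b1 b2 h1' h2'
    constructor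
    · rw [abs_le]; constructor <;> linarith [a1.1, a1.2, b1.1, b1.2, h1'.1, h1'.2]
    · rw [abs_le]; constructor <;> linarith [a2.1, a2.2, b2.1, b2.2, h2'.1, h2'.2]
  obtain ⟨k1, k2⟩ := FF_colip g _ e.1 e.2
  norm_num at k1 k2
  have k1' : |y2.1 - y1.1| ≤ ((268 : ℕ) : ℤ) := by exact_mod_cast k1
  have k2' : |y2.2 - y1.2| ≤ ((268 : ℕ) : ℤ) := by exact_mod_cast k2
  have n3 := (near_gel (genOK_gens A.toTG) (plane (psi b) b κH).2.1 (plane (psi b) b κH).1
    (plane (psi b) b κH).2.2 (sg (oo (st (plane (psi b) b κH).1) (plane (psi b) b κH).2) d1)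
    (sg (oo (st (plane (psi b) b κH).1) (plane (psi b) b κH).2) d2) y1 y2 268 k1' k2').mono
    (by norm_num : 2 * 268 + 2 ≤ 538)
  exact (n1.trans n3).trans n2.symm

theorem act_val_lat {C : Type} [DecidableEq C] (S : Sys C) (c : C) (v : ℤ × ℤ) (x : X C) :
    (actL S c v x).1 = elem S c (loc S c (S.base c) x.1).1 (S.base c)
      ((loc S c (S.base c) x.1).2 + v) := rfl

theorem act_val_ell {C : Type} [DecidableEq C] (S : Sys C) (c : C) (d : Role) (x : X C) :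
    (actR S c d x).1 = elem S c (loc S c (S.base c) x.1).1 d (loc S c (S.base c) x.1).2 := rfl

theorem f_gen (g s : ΓG) (hs : s ∈ A.toTG.gens) :
    Near B.toTG.gens (NT + 78 + NT) (fmap A B g) (fmap A B (g * s)) := by
  unfold fmap
  have lat : ∀ (c : CG) (v : ℤ × ℤ), |v.1| ≤ 1 → |v.2| ≤ 1 →
      Near B.toTG.gens (NT + 78 + NT) (B.nf (fX (A.ev g).1)) (B.nf (fX (A.ev (g * A.lat c v)).1)) := by
    intro c v h1 h2
    rw [A.ev_lat, act_val_lat]
    have hl := loc_valid SG c (SG.base c) (A.ev g).2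
    have he := elem_loc SG c (SG.base c) (A.ev g).2
    conv_lhs => rw [← he]
    exact f_plane B (κ := (c, (loc SG c (SG.base c) (A.ev g).1).1.2)) hl.1 hl.2 _ _
      (by simpa using h1) (by simpa using h2)
  rcases hs with h | ⟨c, h⟩ | ⟨c, h⟩ | ⟨c, r, h⟩
  · rw [h]
    have e : A.z = A.lat CG.V (1, 0) := by
      have := A.rel CG.V Role.r0
      rw [show Role.r0 = SG.base CG.V from rfl, A.ell_base, mul_one, one_mul] at this
      exact this.symm
    rw [e]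
    exact lat _ _ (by norm_num) (by norm_num)
  · rw [h]; exact lat _ _ (by norm_num) (by norm_num)
  · rw [h]; exact lat _ _ (by norm_num) (by norm_num)
  · rw [h, A.ev_ell, act_val_ell]
    have hl := loc_valid SG c (SG.base c) (A.ev g).2
    have he := elem_loc SG c (SG.base c) (A.ev g).2
    conv_lhs => rw [← he]
    exact f_plane B (κ := (c, (loc SG c (SG.base c) (A.ev g).1).1.2)) hl.1 hl.2 _ _
      (by simp) (by simp)

theorem g_gen (g s : ΓH) (hs : s ∈ B.toTG.gens) :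
    Near A.toTG.gens (NG + 538 + NG) (gmap A B g) (gmap A B (g * s)) := by
  unfold gmap
  have lat : ∀ (c : CH) (v : ℤ × ℤ), |v.1| ≤ 1 → |v.2| ≤ 1 →
      Near A.toTG.gens (NG + 538 + NG) (A.nf (gX (B.ev g).1)) (A.nf (gX (B.ev (g * B.lat c v)).1)) := by
    intro c v h1 h2
    rw [B.ev_lat, act_val_lat]
    have hl := loc_valid SH c (SH.base c) (B.ev g).2
    have he := elem_loc SH c (SH.base c) (B.ev g).2
    conv_lhs => rw [← he]
    exact g_plane A (κH := (c, (loc SH c (SH.base c) (B.ev g).1).1.2)) hl.1 hl.2 _ _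
      (by simpa using h1) (by simpa using h2)
  rcases hs with h | ⟨c, h⟩ | ⟨c, h⟩ | ⟨c, r, h⟩
  · rw [h]
    have e : B.z = B.lat 0 (1, 0) := by
      have := B.rel 0 Role.r0
      rw [show Role.r0 = SH.base 0 from rfl, B.ell_base, mul_one, one_mul] at this
      exact this.symm
    rw [e]
    exact lat _ _ (by norm_num) (by norm_num)
  · rw [h]; exact lat _ _ (by norm_num) (by norm_num)
  · rw [h]; exact lat _ _ (by norm_num) (by norm_num)
  · rw [h, B.ev_ell, act_val_ell]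
    have hl := loc_valid SH c (SH.base c) (B.ev g).2
    have he := elem_loc SH c (SH.base c) (B.ev g).2
    conv_lhs => rw [← he]
    exact g_plane A (κH := (c, (loc SH c (SH.base c) (B.ev g).1).1.2)) hl.1 hl.2 _ _
      (by simp) (by simp)

theorem fX_valid {p : LG × ℤ} (h : Valid p.1) : Valid (fX p).1 := (good_st _ h).vb
theorem gX_valid {p : LH × ℤ} (h : Valid p.1) : Valid (gX p).1 := (psi_spec _ h).1

theorem gf_near (g : ΓG) : Near A.toTG.gens 2 (gmap A B (fmap A B g)) g := by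
  unfold gmap fmap
  have hv := (A.ev g).2
  have e1 : (B.ev (B.nf (fX (A.ev g).1))).1 = fX (A.ev g).1 :=
    congrArg Subtype.val (B.ev_nf ⟨fX (A.ev g).1, fX_valid hv⟩)
  rw [e1]
  conv_rhs => rw [← A.nf_ev g]
  clear e1
  generalize (A.ev g).1 = p at hv ⊢
  obtain ⟨l, s⟩ := p
  have g0 := good_st l hv
  have e2 : gX (fX (l, s)) = (l, ⌊((⌊(st l).mu * s + (st l).y⌋ : ℤ) - (st l).y) / (st l).mu⌋) := by
    unfold gX fX
    dsimp only
    rw [psi_b hv]
  rw [e2]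
  refine near_ver (genOK_gens A.toTG) l _ _ 2 ?_
  have hm0 : (st l).mu ≠ 0 := by
    intro h; have := g0.lo; rw [h] at this; norm_num at this
  have h1 := div_floor_close (m := (st l).mu)
    (a := (⌊(st l).mu * s + (st l).y⌋ : ℤ) - (st l).y) g0.lo g0.hi
  have h3 : |((⌊(st l).mu * s + (st l).y⌋ : ℤ) - (st l).y) / (st l).mu - s| ≤ 1 := by
    have f1 := Int.floor_le ((st l).mu * s + (st l).y)
    have f2 := Int.lt_floor_add_one ((st l).mu * s + (st l).y)
    have e : ((⌊(st l).mu * s + (st l).y⌋ : ℤ) - (st l).y) / (st l).mu - s =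
        ((⌊(st l).mu * s + (st l).y⌋ : ℤ) - ((st l).mu * s + (st l).y)) / (st l).mu := by
      field_simp; ring
    rw [e, abs_div, div_le_iff₀ (by linarith [g0.lo]), one_mul]
    refine le_trans ?_ g0.lo
    rw [abs_le]; constructor <;> linarith
  have h4 := floor_sub_le _ _ 1 (by exact_mod_cast h3)
  rw [Int.floor_intCast] at h4
  rw [abs_sub_comm]
  exact_mod_cast h4

theorem fg_near (h : ΓH) : Near B.toTG.gens 31 (fmap A B (gmap A B h)) h := by
  unfold gmap fmap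
  have hv := (B.ev h).2
  have e1 : (A.ev (A.nf (gX (B.ev h).1))).1 = gX (B.ev h).1 :=
    congrArg Subtype.val (A.ev_nf ⟨gX (B.ev h).1, gX_valid hv⟩)
  rw [e1]
  conv_rhs => rw [← B.nf_ev h]
  clear e1
  generalize (B.ev h).1 = p at hv ⊢
  obtain ⟨b, s⟩ := p
  obtain ⟨v, n, hn, hb⟩ := psi_spec b hv
  have g0 := good_st _ v
  have e2 : fX (gX (b, s)) = ((st (psi b)).b,
      ⌊(st (psi b)).mu * ⌊((s : ℝ) - (st (psi b)).y) / (st (psi b)).mu⌋ + (st (psi b)).y⌋) := rfl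
  rw [e2]
  have h1 := div_floor_close (m := (st (psi b)).mu) (a := (s : ℝ) - (st (psi b)).y) g0.lo g0.hi
  have h2 : Near B.toTG.gens 9 (B.nf ((st (psi b)).b,
      ⌊(st (psi b)).mu * ⌊((s : ℝ) - (st (psi b)).y) / (st (psi b)).mu⌋ + (st (psi b)).y⌋))
      (B.nf ((st (psi b)).b, s)) := by
    refine near_ver (genOK_gens B.toTG) _ _ _ 9 ?_
    have h4 := floor_sub_le (s : ℝ) ((st (psi b)).mu *
      ⌊((s : ℝ) - (st (psi b)).y) / (st (psi b)).mu⌋ + (st (psi b)).y) 8 (by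
        rw [abs_le] at h1 ⊢
        push_cast
        constructor <;> linarith [h1.1, h1.2])
    rw [Int.floor_intCast] at h4
    exact_mod_cast h4
  have h3 := near_shift (genOK_gens B.toTG) (st (psi b)).b n s (cell_bound _ v n hn)
  rw [← hb] at h3
  exact h2.trans h3

/-- the quasi-isometry -/
theorem qi : ∃ (f : ΓG → ΓH) (L Cc : ℕ),
    (∀ (a b : ΓG) (n : ℕ), Near A.toTG.gens n a b → Near B.toTG.gens (L * n + Cc) (f a) (f b)) ∧
    (∀ (a b : ΓG) (n : ℕ), Near B.toTG.gens n (f a) (f b) → Near A.toTG.gens (L * n + Cc) a b) ∧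
    (∀ y : ΓH, ∃ x : ΓG, Near B.toTG.gens Cc (f x) y) := by
  refine ⟨fmap A B, max (NT + 78 + NT) (NG + 538 + NG), 31, ?_, ?_, ?_⟩
  · intro a b n h
    refine (lip_of_gen (fmap A B) _ (fun g s hs => f_gen A B g s hs) n a b h).mono ?_
    have : (NT + 78 + NT) * n ≤ max (NT + 78 + NT) (NG + 538 + NG) * n :=
      Nat.mul_le_mul_right n (le_max_left _ _)
    omega
  · intro a b n h
    have h1 := lip_of_gen (gmap A B) _ (fun g s hs => g_gen A B g s hs) n _ _ h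
    have h2 := ((gf_near A B a).symm.trans h1).trans (gf_near A B b)
    refine h2.mono ?_
    have : (NG + 538 + NG) * n ≤ max (NT + 78 + NT) (NG + 538 + NG) * n :=
      Nat.mul_le_mul_right n (le_max_right _ _)
    omega
  · intro y
    exact ⟨gmap A B y, fg_near A B y⟩

end Pool.Agent.W392.QI
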