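import Pool.Agent.W392.QI.Sys

set_option autoImplicit false
set_option linter.unusedSectionVars false
set_option linter.unusedSimpArgs false

/-! Groups with the structure of a tubular tree system and their normal forms. -/

namespace Pool.Agent.W392.QI

variable {C : Type} [DecidableEq C]

structure TG (S : Sys C) (Γ : Type) [Group Γ] where
  z : Γ
  lat : C → ℤ × ℤ → Γ
  lat_add : ∀ (c : C) (v w : ℤ × ℤ), lat c (v + w) = lat c v * lat c w
  ell : C → Role → Γ
  ell_base : ∀ c : C, ell c (S.base c) = 1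
  rel : ∀ (c : C) (r : Role), lat c (S.vec c r) * ell c r = ell c r * z

variable {S : Sys C} {Γ : Type} [Group Γ] (T : TG S Γ)

theorem TG.lat_zero (c : C) : T.lat c 0 = 1 := by
  have := T.lat_add c 0 0
  rw [add_zero] at this
  exact left_eq_mul.mp this

theorem TG.lat_neg (c : C) (v : ℤ × ℤ) : T.lat c (-v) = (T.lat c v)⁻¹ := by
  have := T.lat_add c (-v) v
  rw [neg_add_cancel, T.lat_zero] at this
  exact eq_inv_of_mul_eq_one_left this.symm

theorem TG.lat_sub (c : C) (v w : ℤ × ℤ) : T.lat c (v - w) = (T.lat c w)⁻¹ * T.lat c v := by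
  rw [sub_eq_neg_add, T.lat_add, T.lat_neg]

theorem TG.lat_sm (c : C) (s : ℤ) (v : ℤ × ℤ) : T.lat c (sm s v) = (T.lat c v) ^ s := by
  induction s using Int.induction_on with
  | zero => simp [sm_zero, T.lat_zero]
  | succ n ih => rw [sm_add, T.lat_add, ih, sm_one, zpow_add, zpow_one]
  | pred n ih =>
    have h : sm (-(n : ℤ) - 1) v = sm (-(n : ℤ)) v + -v := by
      ext <;> simp [sm] <;> ring
    rw [h, T.lat_add, ih, T.lat_neg, zpow_sub, zpow_one]

theorem TG.rel_zpow (c : C) (r : Role) (s : ℤ) :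
    T.lat c (sm s (S.vec c r)) * T.ell c r = T.ell c r * T.z ^ s := by
  have h : T.lat c (S.vec c r) = T.ell c r * T.z * (T.ell c r)⁻¹ := by
    rw [← T.rel c r]; group
  rw [T.lat_sm, h, conj_zpow]; group

/-- normal form of an address -/
def TG.nfH : List (Step C) → Γ
  | [] => 1
  | t :: l => TG.nfH l * (T.ell t.c t.r)⁻¹ * T.lat t.c (S.rep t.c t.d t.i) * T.ell t.c t.d

def TG.nf (x : List (Step C) × ℤ) : Γ := T.nfH x.1 * T.z ^ x.2

theorem TG.nf_elem (c : C) (p : List (Step C) × Role) (d : Role) (x : ℤ × ℤ) :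
    T.nf (elem S c p d x) = T.nfH p.1 * (T.ell c p.2)⁻¹ * T.lat c x * T.ell c d := by
  obtain ⟨l, r⟩ := p
  have hx := S.decomp c d x
  unfold elem
  split_ifs with h
  · obtain ⟨h1, h2⟩ := h
    dsimp only at h1
    subst h1
    rw [h2, S.rep_zero, zero_add] at hx
    have h3 := T.rel_zpow c d (S.ver c d x)
    rw [hx] at h3
    simp only [TG.nf, mul_assoc, h3, inv_mul_cancel_left]
  · have h3 := T.rel_zpow c d (S.ver c d x)
    simp only [TG.nf, TG.nfH]
    conv_rhs => rw [← hx, T.lat_add]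
    simp only [mul_assoc, h3]

theorem TG.nf_loc (c : C) (d : Role) {x : List (Step C) × ℤ} (hx : Valid x.1) :
    T.nf x = T.nfH (loc S c d x).1.1 * (T.ell c (loc S c d x).1.2)⁻¹ *
      T.lat c (loc S c d x).2 * T.ell c d := by
  rw [← T.nf_elem c, elem_loc S c d hx]

theorem TG.nf_actZ (x : X C) : T.nf (actZ x).1 = T.nf x.1 * T.z := by
  simp only [TG.nf, actZ_val, zpow_add, zpow_one, mul_assoc]

theorem TG.nf_actL (c : C) (v : ℤ × ℤ) (x : X C) :
    T.nf (actL S c v x).1 = T.nf x.1 * T.lat c v := by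
  have h1 : (actL S c v x).1 = elem S c (loc S c (S.base c) x.1).1 (S.base c)
    ((loc S c (S.base c) x.1).2 + v) := rfl
  rw [h1, T.nf_elem, T.nf_loc c (S.base c) x.2, T.ell_base, T.lat_add]
  simp only [mul_one, mul_assoc]

theorem TG.nf_actR (c : C) (d : Role) (x : X C) :
    T.nf (actR S c d x).1 = T.nf x.1 * T.ell c d := by
  have h1 : (actR S c d x).1 = elem S c (loc S c (S.base c) x.1).1 d
    ((loc S c (S.base c) x.1).2) := rfl
  rw [h1, T.nf_elem, T.nf_loc c (S.base c) x.2, T.ell_base]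
  simp only [mul_one, mul_assoc]

/-- the generators -/
def TG.gens (T : TG S Γ) : Set Γ :=
  {g | g = T.z ∨ (∃ c, g = T.lat c (1, 0)) ∨ (∃ c, g = T.lat c (0, 1)) ∨ (∃ c r, g = T.ell c r)}

/-- a group with the structure and a compatible action -/
structure TA (S : Sys C) (Γ : Type) [Group Γ] extends TG S Γ where
  act : Γ →* Equiv.Perm (X C)
  act_z : act z = (actZ)⁻¹
  act_lat : ∀ (c : C) (v : ℤ × ℤ), act (lat c v) = (actL S c v)⁻¹
  act_ell : ∀ (c : C) (r : Role), act (ell c r) = (actR S c r)⁻¹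
  gens_top : Subgroup.closure toTG.gens = ⊤

variable (A : TA S Γ)

def x0 : X C := ⟨([], 0), trivial⟩

def TA.ev (g : Γ) : X C := A.act g⁻¹ x0

theorem TA.ev_mul (g s : Γ) : A.ev (g * s) = A.act s⁻¹ (A.ev g) := by
  simp [TA.ev, mul_inv_rev, map_mul, Equiv.Perm.mul_apply]

theorem TA.ev_z (g : Γ) : A.ev (g * A.z) = actZ (A.ev g) := by
  rw [A.ev_mul, map_inv, A.act_z, inv_inv]

theorem TA.ev_lat (g : Γ) (c : C) (v : ℤ × ℤ) : A.ev (g * A.lat c v) = actL S c v (A.ev g) := by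
  rw [A.ev_mul, map_inv, A.act_lat, inv_inv]

theorem TA.ev_ell (g : Γ) (c : C) (r : Role) : A.ev (g * A.ell c r) = actR S c r (A.ev g) := by
  rw [A.ev_mul, map_inv, A.act_ell, inv_inv]

theorem TA.nf_act (g : Γ) : ∀ x : X C, A.nf (A.act g⁻¹ x).1 = A.nf x.1 * g := by
  have hg : g ∈ Subgroup.closure A.toTG.gens := by rw [A.gens_top]; trivial
  induction hg using Subgroup.closure_induction with
  | mem s hs =>
    intro x
    rcases hs with h | ⟨c, h⟩ | ⟨c, h⟩ | ⟨c, r, h⟩
    · rw [h, map_inv, A.act_z, inv_inv, A.nf_actZ]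
    · rw [h, map_inv, A.act_lat, inv_inv, A.nf_actL]
    · rw [h, map_inv, A.act_lat, inv_inv, A.nf_actL]
    · rw [h, map_inv, A.act_ell, inv_inv, A.nf_actR]
  | one => intro x; simp
  | mul a b _ _ ha hb =>
    intro x
    rw [mul_inv_rev, map_mul, Equiv.Perm.mul_apply, hb, ha, mul_assoc]
  | inv a _ ha =>
    intro x
    have h := ha (A.act a⁻¹⁻¹ x)
    rw [← Equiv.Perm.mul_apply, ← map_mul, mul_inv_cancel, map_one, Equiv.Perm.one_apply] at h
    rw [h, mul_assoc, mul_inv_cancel, mul_one]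

theorem TA.nf_ev (g : Γ) : A.nf (A.ev g).1 = g := by
  unfold TA.ev
  rw [A.nf_act]
  simp [x0, TG.nf, TG.nfH]

theorem TA.ev_zpow (g : Γ) (s : ℤ) :
    (A.ev (g * A.z ^ s)).1 = ((A.ev g).1.1, (A.ev g).1.2 + s) := by
  induction s using Int.induction_on with
  | zero => simp
  | succ n ih =>
    rw [zpow_add, zpow_one, ← mul_assoc, A.ev_z]
    simp only [actZ_val, ih, add_assoc]
  | pred n ih =>
    have h := A.ev_z (g * A.z ^ (-(n : ℤ) - 1))
    rw [mul_assoc, ← zpow_add_one, sub_add_cancel] at h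
    have h1 : (A.ev (g * A.z ^ (-(n : ℤ)))).1 = ((A.ev (g * A.z ^ (-(n : ℤ) - 1))).1.1,
      (A.ev (g * A.z ^ (-(n : ℤ) - 1))).1.2 + 1) := by rw [h]; rfl
    rw [ih] at h1
    have h2 := congrArg Prod.fst h1
    have h3 := congrArg Prod.snd h1
    dsimp only at h2 h3
    refine Prod.ext h2.symm ?_
    dsimp only
    omega

theorem loc_own (c : C) (r : Role) (l : List (Step C)) (hl : own l ≠ some (c, r)) (s : ℤ) :
    loc S c r (l, s) = ((l, r), sm s (S.vec c r)) := by
  cases l with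
  | nil => rfl
  | cons t l =>
    have hne : ¬ (t.c = c ∧ t.d = r) := by
      intro h
      apply hl
      simp [own, h.1, h.2]
    simp only [loc, if_neg hne]

theorem TA.ev_nfH : ∀ (l : List (Step C)) (_ : Valid l), (A.ev (A.nfH l)).1 = (l, 0)
  | [], _ => by
    simp only [TG.nfH, TA.ev, inv_one, map_one]
    rfl
  | t :: l, h => by
    have ih := TA.ev_nfH l h.1
    have ih' : A.ev (A.nfH l) = ⟨(l, 0), h.1⟩ := Subtype.ext ih
    simp only [TG.nfH]
    rw [A.ev_ell, A.ev_lat]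
    have e1 : A.ev (A.nfH l * (A.ell t.c t.r)⁻¹) = (actR S t.c t.r).symm (A.ev (A.nfH l)) := by
      rw [A.ev_mul, inv_inv, A.act_ell]; rfl
    rw [e1, ih']
    have e2 : sheet S t.c t.r ⟨(l, 0), h.1⟩ = (⟨(l, t.r), h.1, h.2.1⟩, 0) := by
      have := loc_own (S := S) t.c t.r l h.2.1 0
      refine Prod.ext (Subtype.ext ?_) ?_
      · show (loc S t.c t.r (l, 0)).1 = _
        rw [this]
      · show (loc S t.c t.r (l, 0)).2 = _
        rw [this, sm_zero]
    have e3 : (actR S t.c t.r).symm ⟨(l, 0), h.1⟩ =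
        (sheet S t.c (S.base t.c)).symm (⟨(l, t.r), h.1, h.2.1⟩, 0) := by
      show (sheet S t.c (S.base t.c)).symm ((sheet S t.c t.r) ⟨(l, 0), h.1⟩) = _
      rw [e2]
    rw [e3]
    simp only [actL, actR, Equiv.trans_apply, Equiv.apply_symm_apply, shiftP_apply, zero_add]
    show elem S t.c (l, t.r) t.d (S.rep t.c t.d t.i) = (t :: l, 0)
    have e4 : S.idx t.c t.d (S.rep t.c t.d t.i) = t.i := by
      have := S.idx_eq t.c t.d t.i 0
      rwa [sm_zero, add_zero] at this
    have e5 : S.ver t.c t.d (S.rep t.c t.d t.i) = 0 := by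
      have := S.ver_eq t.c t.d t.i 0
      rwa [sm_zero, add_zero] at this
    unfold elem
    rw [e4, e5, if_neg h.2.2]

theorem TA.ev_nf (x : X C) : A.ev (A.nf x.1) = x := by
  obtain ⟨⟨l, s⟩, hx⟩ := x
  apply Subtype.ext
  simp only [TG.nf]
  rw [A.ev_zpow, A.ev_nfH l hx]
  simp

end Pool.Agent.W392.QI
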