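import Pool.Agent.W392.QI.Inst

set_option autoImplicit false
set_option linter.unusedSectionVars false
set_option linter.unusedSimpArgs false

/-! The group `G`. -/

namespace Pool.Agent.W392.QI

inductive GG | z | u | p | q | y | al | be

inductive RG | a | b | c | d | e | f

open FreeGroup in
/-- the relators of `G` -/
def relF : RG → FreeGroup GG
  | .a => of .z * of .u * (of .z)⁻¹ * (of .u)⁻¹
  | .b => of .p * of .z * (of .p)⁻¹ * (of .u)⁻¹
  | .c => of .q * of .z * (of .q)⁻¹ * ((of .z)⁻¹ * of .u * of .u)⁻¹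
  | .d => of .z * of .y * (of .z)⁻¹ * (of .y)⁻¹
  | .e => of .al * of .z * (of .al)⁻¹ * (of .y * of .y)⁻¹
  | .f => of .be * of .z * (of .be)⁻¹ * (of .y * of .y * of .y * (of .z)⁻¹)⁻¹

def relsG : Set (FreeGroup GG) := Set.range relF

abbrev G : Type := PresentedGroup relsG

def gg (x : GG) : G := PresentedGroup.of x

theorem relG (r : RG) : FreeGroup.lift gg (relF r) = 1 := by
  have h := PresentedGroup.one_of_mem (rels := relsG) (x := relF r) ⟨r, rfl⟩
  rw [← h]
  have : FreeGroup.lift gg = PresentedGroup.mk relsG := by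
    ext x
    simp [gg, PresentedGroup.of]
  rw [this]

theorem rel_a : gg .z * gg .u = gg .u * gg .z := by
  have h := relG .a
  simp only [relF, map_mul, map_inv, FreeGroup.lift_apply_of] at h
  rw [mul_inv_eq_one, mul_inv_eq_iff_eq_mul] at h
  exact h

theorem rel_b : gg .p * gg .z = gg .u * gg .p := by
  have h := relG .b
  simp only [relF, map_mul, map_inv, FreeGroup.lift_apply_of] at h
  rw [mul_inv_eq_one, mul_inv_eq_iff_eq_mul] at h
  exact h

theorem rel_c : gg .q * gg .z = (gg .z)⁻¹ * gg .u * gg .u * gg .q := by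
  have h := relG .c
  simp only [relF, map_mul, map_inv, FreeGroup.lift_apply_of] at h
  rw [mul_inv_eq_one, mul_inv_eq_iff_eq_mul] at h
  exact h

theorem rel_d : gg .z * gg .y = gg .y * gg .z := by
  have h := relG .d
  simp only [relF, map_mul, map_inv, FreeGroup.lift_apply_of] at h
  rw [mul_inv_eq_one, mul_inv_eq_iff_eq_mul] at h
  exact h

theorem rel_e : gg .al * gg .z = gg .y * gg .y * gg .al := by
  have h := relG .e
  simp only [relF, map_mul, map_inv, FreeGroup.lift_apply_of] at h
  rw [mul_inv_eq_one, mul_inv_eq_iff_eq_mul] at h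
  exact h

theorem rel_f : gg .be * gg .z = gg .y * gg .y * gg .y * (gg .z)⁻¹ * gg .be := by
  have h := relG .f
  simp only [relF, map_mul, map_inv, FreeGroup.lift_apply_of] at h
  rw [mul_inv_eq_one, mul_inv_eq_iff_eq_mul] at h
  exact h

def rawG : Raw SG G where
  z := gg .z
  e1 c := match c with | .V => gg .z | .E => gg .y
  e2 c := match c with | .V => gg .u | .E => gg .z
  comm c := by
    cases c
    · exact rel_a
    · exact rel_d.symm
  ell c r := match c, r with
    | .V, .r0 => 1
    | .V, .r1 => gg .p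
    | .V, .r2 => gg .q
    | .E, .r0 => gg .al
    | .E, .r1 => 1
    | .E, .r2 => gg .be
  ell_base c := by cases c <;> rfl
  rel c r := by
    cases c <;> cases r
    · show gg .z ^ (1 : ℤ) * gg .u ^ (0 : ℤ) * 1 = 1 * gg .z
      simp
    · show gg .z ^ (0 : ℤ) * gg .u ^ (1 : ℤ) * gg .p = gg .p * gg .z
      rw [rel_b]; simp
    · show gg .z ^ (-1 : ℤ) * gg .u ^ (2 : ℤ) * gg .q = gg .q * gg .z
      rw [rel_c, zpow_neg_one, zpow_two]; simp only [mul_assoc]
    · show gg .y ^ (2 : ℤ) * gg .z ^ (0 : ℤ) * gg .al = gg .al * gg .z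
      rw [rel_e, zpow_two]; simp
    · show gg .y ^ (0 : ℤ) * gg .z ^ (1 : ℤ) * 1 = 1 * gg .z
      simp
    · show gg .y ^ (3 : ℤ) * gg .z ^ (-1 : ℤ) * gg .be = gg .be * gg .z
      rw [rel_f, zpow_neg_one]
      have : gg .y ^ (3 : ℤ) = gg .y * gg .y * gg .y := by
        rw [show (3 : ℤ) = 2 + 1 from rfl, zpow_add, zpow_two, zpow_one]
      rw [this]

def actF : GG → Equiv.Perm (X CG)
  | .z => (actZ)⁻¹
  | .u => (actL SG .V (0, 1))⁻¹
  | .p => (actR SG .V .r1)⁻¹
  | .q => (actR SG .V .r2)⁻¹
  | .y => (actL SG .E (1, 0))⁻¹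
  | .al => (actR SG .E .r0)⁻¹
  | .be => (actR SG .E .r2)⁻¹

theorem actZ_V : (actZ : Equiv.Perm (X CG)) = actL SG .V (1, 0) := (actL_base SG CG.V).symm
theorem actZ_E : (actZ : Equiv.Perm (X CG)) = actL SG .E (0, 1) := (actL_base SG CG.E).symm

theorem conj_of_rel {P : Type} [Group P] {R L Z : P} (h : R * L = Z * R) :
    R⁻¹ * Z⁻¹ * R = L⁻¹ := by
  have : L = R⁻¹ * Z * R := by rw [mul_assoc, ← h, inv_mul_cancel_left]
  rw [this]; group

theorem act_rel (r : RG) : FreeGroup.lift actF (relF r) = 1 := by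
  have comV : actZ * actL SG CG.V (0, 1) = actL SG CG.V (0, 1) * actZ := by
    rw [actZ_V, actL_mul, actL_mul, add_comm]
  have comE : actZ * actL SG CG.E (1, 0) = actL SG CG.E (1, 0) * actZ := by
    rw [actZ_E, actL_mul, actL_mul, add_comm]
  cases r <;> simp only [relF, map_mul, map_inv, FreeGroup.lift_apply_of, actF, mul_inv_eq_one,
    inv_inv]
  · rw [← mul_inv_rev, ← comV, mul_inv_rev, inv_mul_cancel_right, inv_mul_cancel]
  · rw [conj_of_rel (actR_rel' SG CG.V Role.r1)]
    exact inv_mul_cancel _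
  · rw [conj_of_rel (actR_rel' SG CG.V Role.r2)]
    rw [actZ_V, actL_inv, actL_inv, actL_mul, actL_mul]
    rfl
  · rw [← mul_inv_rev, ← comE, mul_inv_rev, inv_mul_cancel_right, inv_mul_cancel]
  · rw [conj_of_rel (actR_rel' SG CG.E Role.r0)]
    rw [actL_inv, actL_inv, actL_mul]
    rfl
  · rw [conj_of_rel (actR_rel' SG CG.E Role.r2)]
    rw [actZ_E, actL_inv, actL_inv, actL_mul, actL_mul, actL_mul]
    rfl

def actG : G →* Equiv.Perm (X CG) :=
  PresentedGroup.toGroup (rels := relsG) (f := actF) (by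
    rintro _ ⟨r, rfl⟩
    exact act_rel r)

theorem actG_gg (x : GG) : actG (gg x) = actF x := PresentedGroup.toGroup.of _

theorem genG_top : Subgroup.closure (rawG.toTG.gens) = ⊤ := by
  rw [eq_top_iff, ← PresentedGroup.closure_range_of relsG, Subgroup.closure_le]
  rintro _ ⟨x, rfl⟩
  apply Subgroup.subset_closure
  cases x
  · exact rawG.mem_z
  · exact rawG.mem_e2 CG.V
  · exact rawG.mem_ell CG.V Role.r1
  · exact rawG.mem_ell CG.V Role.r2
  · exact rawG.mem_e1 CG.E
  · exact rawG.mem_ell CG.E Role.r0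
  · exact rawG.mem_ell CG.E Role.r2

def taG : TA SG G :=
  rawG.toTA actG (actG_gg .z)
    (by
      intro c
      cases c
      · show actG (gg .z) = _
        rw [actG_gg, ← actZ_V]; rfl
      · exact actG_gg .y)
    (by
      intro c
      cases c
      · exact actG_gg .u
      · show actG (gg .z) = _
        rw [actG_gg, ← actZ_E]; rfl)
    (by
      intro c r
      cases c <;> cases r
      · show actG 1 = _
        rw [map_one]
        have := actR_base SG CG.V
        rw [show SG.base CG.V = Role.r0 from rfl] at this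
        rw [this, inv_one]
      · exact actG_gg .p
      · exact actG_gg .q
      · exact actG_gg .al
      · show actG 1 = _
        rw [map_one]
        have := actR_base SG CG.E
        rw [show SG.base CG.E = Role.r1 from rfl] at this
        rw [this, inv_one]
      · exact actG_gg .be)
    genG_top

/-- the element that dies in every finite quotient -/
def rr : G := (gg .al)⁻¹ * gg .y * gg .al
def ww : G := rr * gg .u * rr⁻¹ * (gg .u)⁻¹

end Pool.Agent.W392.QI
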