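import Pool.Agent.W392.QI.Final

set_option autoImplicit false
set_option linter.unusedSectionVars false
set_option linter.unusedSimpArgs false

/-! The two groups. -/

namespace Pool.Agent.W392.QI

section Perm

variable {C : Type} [DecidableEq C] (S : Sys C)

theorem actL_mul (c : C) (v w : ℤ × ℤ) : actL S c v * actL S c w = actL S c (v + w) := by
  ext1 x
  rw [Equiv.Perm.mul_apply, actL_add, add_comm]

theorem actL_zero (c : C) : actL S c 0 = 1 := by
  have := actL_mul S c 0 0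
  rw [add_zero] at this
  exact left_eq_mul.mp this.symm

theorem actL_inv (c : C) (v : ℤ × ℤ) : (actL S c v)⁻¹ = actL S c (-v) := by
  have := actL_mul S c (-v) v
  rw [neg_add_cancel, actL_zero] at this
  exact (eq_inv_of_mul_eq_one_left this).symm

theorem actL_zpow (c : C) (s : ℤ) (v : ℤ × ℤ) : (actL S c v) ^ s = actL S c (sm s v) := by
  induction s using Int.induction_on with
  | zero => rw [zpow_zero, sm_zero, actL_zero]
  | succ n ih => rw [zpow_add, zpow_one, ih, actL_mul, sm_add, sm_one]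
  | pred n ih =>
    have h : sm (-(n : ℤ) - 1) v = sm (-(n : ℤ)) v + -v := by
      ext <;> simp [sm] <;> ring
    rw [zpow_sub, zpow_one, ih, actL_inv, actL_mul, h]

theorem actL_base (c : C) : actL S c (S.vec c (S.base c)) = actZ := by
  ext1 x
  exact actL_vec S c x

theorem actR_rel' (c : C) (d : Role) : actR S c d * actL S c (S.vec c d) = actZ * actR S c d := by
  ext1 x
  exact actR_rel S c d x

theorem actR_base (c : C) : actR S c (S.base c) = 1 := by
  ext1 x
  simp [actR]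

end Perm

/-- raw data for a group with structure -/
structure Raw {C : Type} [DecidableEq C] (S : Sys C) (Γ : Type) [Group Γ] where
  z : Γ
  e1 : C → Γ
  e2 : C → Γ
  comm : ∀ c, Commute (e1 c) (e2 c)
  ell : C → Role → Γ
  ell_base : ∀ c, ell c (S.base c) = 1
  rel : ∀ c r, e1 c ^ (S.vec c r).1 * e2 c ^ (S.vec c r).2 * ell c r = ell c r * z

variable {C : Type} [DecidableEq C] {S : Sys C} {Γ : Type} [Group Γ]

def Raw.toTG (R : Raw S Γ) : TG S Γ where
  z := R.z
  lat c v := R.e1 c ^ v.1 * R.e2 c ^ v.2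
  lat_add c v w := by
    rw [Prod.fst_add, Prod.snd_add, zpow_add, zpow_add]
    have h : R.e1 c ^ w.1 * R.e2 c ^ v.2 = R.e2 c ^ v.2 * R.e1 c ^ w.1 :=
      ((R.comm c).zpow_zpow w.1 v.2).eq
    rw [mul_assoc (R.e1 c ^ v.1), ← mul_assoc (R.e1 c ^ w.1), h]
    simp only [mul_assoc]
  ell := R.ell
  ell_base := R.ell_base
  rel := R.rel

def Raw.toTA (R : Raw S Γ) (act : Γ →* Equiv.Perm (X C)) (hz : act R.z = (actZ)⁻¹)
    (h1 : ∀ c, act (R.e1 c) = (actL S c (1, 0))⁻¹) (h2 : ∀ c, act (R.e2 c) = (actL S c (0, 1))⁻¹)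
    (hl : ∀ c r, act (R.ell c r) = (actR S c r)⁻¹)
    (htop : Subgroup.closure (R.toTG.gens) = ⊤) : TA S Γ where
  toTG := R.toTG
  act := act
  act_z := hz
  act_lat c v := by
    show act (R.e1 c ^ v.1 * R.e2 c ^ v.2) = _
    rw [map_mul, map_zpow, map_zpow, h1, h2, inv_zpow, inv_zpow, actL_zpow, actL_zpow, actL_inv,
      actL_inv, actL_inv, actL_mul]
    congr 1
    ext <;> simp [sm]
  act_ell := hl
  gens_top := htop

theorem Raw.mem_z (R : Raw S Γ) : R.z ∈ R.toTG.gens := Or.inl rfl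
theorem Raw.mem_e1 (R : Raw S Γ) (c : C) : R.e1 c ∈ R.toTG.gens :=
  Or.inr (Or.inl ⟨c, by simp [Raw.toTG]⟩)
theorem Raw.mem_e2 (R : Raw S Γ) (c : C) : R.e2 c ∈ R.toTG.gens :=
  Or.inr (Or.inr (Or.inl ⟨c, by simp [Raw.toTG]⟩))
theorem Raw.mem_ell (R : Raw S Γ) (c : C) (r : Role) : R.ell c r ∈ R.toTG.gens :=
  Or.inr (Or.inr (Or.inr ⟨c, r, rfl⟩))

end Pool.Agent.W392.QI
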