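import Pool.Agent.W392.QI.Grp

set_option autoImplicit false
set_option linter.unusedSectionVars false
set_option linter.unusedSimpArgs false

/-! Word length. -/

namespace Pool.Agent.W392.QI

def WL {Γ : Type} [Group Γ] (Gs : Set Γ) (n : ℕ) (g : Γ) : Prop :=
  ∃ l : List Γ, l.length ≤ n ∧ (∀ x ∈ l, x ∈ Gs ∨ x⁻¹ ∈ Gs) ∧ l.prod = g

section
variable {Γ : Type} [Group Γ] {Gs : Set Γ}

theorem WL.one (n : ℕ) : WL Gs n 1 := ⟨[], by simp, by simp, by simp⟩

theorem WL.mono {n m : ℕ} {g : Γ} (h : WL Gs n g) (hnm : n ≤ m) : WL Gs m g := by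
  obtain ⟨l, h1, h2, h3⟩ := h
  exact ⟨l, h1.trans hnm, h2, h3⟩

theorem WL.mul {n m : ℕ} {g h : Γ} (hg : WL Gs n g) (hh : WL Gs m h) : WL Gs (n + m) (g * h) := by
  obtain ⟨l, h1, h2, h3⟩ := hg
  obtain ⟨l', h1', h2', h3'⟩ := hh
  refine ⟨l ++ l', ?_, ?_, ?_⟩
  · rw [List.length_append]; omega
  · intro x hx
    rcases List.mem_append.mp hx with h | h
    · exact h2 x h
    · exact h2' x h
  · rw [List.prod_append, h3, h3']

theorem WL.inv {n : ℕ} {g : Γ} (hg : WL Gs n g) : WL Gs n g⁻¹ := by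
  obtain ⟨l, h1, h2, h3⟩ := hg
  refine ⟨(l.map (·⁻¹)).reverse, by simpa using h1, ?_, ?_⟩
  · intro x hx
    rw [List.mem_reverse, List.mem_map] at hx
    obtain ⟨y, hy, rfl⟩ := hx
    rw [inv_inv]
    exact (h2 y hy).symm
  · rw [← List.prod_inv_reverse, h3]

theorem WL.gen {g : Γ} (h : g ∈ Gs) : WL Gs 1 g := ⟨[g], by simp, by simp [h], by simp⟩

theorem WL.pow {n : ℕ} {g : Γ} (hg : WL Gs n g) (k : ℕ) : WL Gs (k * n) (g ^ k) := by
  induction k with
  | zero => simpa using WL.one 0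
  | succ k ih =>
    rw [pow_succ, Nat.succ_mul]
    exact ih.mul hg

theorem WL.zpow {g : Γ} (hg : WL Gs 1 g) (s : ℤ) : WL Gs s.natAbs (g ^ s) := by
  rcases Int.natAbs_eq s with h | h
  · have := hg.pow s.natAbs
    rw [mul_one] at this
    have h2 : g ^ s = g ^ s.natAbs := by conv_lhs => rw [h, zpow_natCast]
    rw [h2]; exact this
  · have := (hg.pow s.natAbs).inv
    rw [mul_one] at this
    have h2 : g ^ s = (g ^ s.natAbs)⁻¹ := by conv_lhs => rw [h, zpow_neg, zpow_natCast]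
    rw [h2]; exact this

def Near (Gs : Set Γ) (n : ℕ) (g h : Γ) : Prop := WL Gs n (g⁻¹ * h)

theorem Near.refl (n : ℕ) (g : Γ) : Near Gs n g g := by
  unfold Near; rw [inv_mul_cancel]; exact WL.one n

theorem Near.symm {n : ℕ} {g h : Γ} (H : Near Gs n g h) : Near Gs n h g := by
  have := WL.inv H
  unfold Near
  rwa [mul_inv_rev, inv_inv] at this

theorem Near.trans {n m : ℕ} {g h k : Γ} (H : Near Gs n g h) (H' : Near Gs m h k) :
    Near Gs (n + m) g k := by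
  have := WL.mul H H'
  unfold Near
  rwa [mul_assoc, mul_inv_cancel_left] at this

theorem Near.mono {n m : ℕ} {g h : Γ} (H : Near Gs n g h) (hnm : n ≤ m) : Near Gs m g h :=
  WL.mono H hnm

theorem Near.of_eq {n : ℕ} {g h : Γ} (H : g = h) : Near Gs n g h := H ▸ Near.refl n g

/-- a map which moves neighbours a bounded amount is Lipschitz -/
theorem lip_of_gen {Δ : Type} [Group Δ] {Hs : Set Δ} (f : Γ → Δ) (N : ℕ)
    (hf : ∀ g s, s ∈ Gs → Near Hs N (f g) (f (g * s))) (n : ℕ) (g h : Γ) (H : Near Gs n g h) :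
    Near Hs (N * n) (f g) (f h) := by
  obtain ⟨l, h1, h2, h3⟩ := H
  have key : ∀ (l : List Γ) (g : Γ), (∀ x ∈ l, x ∈ Gs ∨ x⁻¹ ∈ Gs) →
      Near Hs (N * l.length) (f g) (f (g * l.prod)) := by
    intro l
    induction l with
    | nil => intro g _; simpa using Near.refl 0 (f g)
    | cons x l ih =>
      intro g hx
      have h4 : Near Hs N (f g) (f (g * x)) := by
        rcases hx x (by simp) with h | h
        · exact hf g x h
        · have := hf (g * x) x⁻¹ h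
          rw [mul_inv_cancel_right] at this
          exact this.symm
      have h5 := ih (g * x) (fun y hy => hx y (by simp [hy]))
      have h6 := h4.trans h5
      rw [List.prod_cons, List.length_cons, ← mul_assoc]
      refine h6.mono ?_
      rw [mul_add, mul_one, add_comm]
  have h4 := key l g h2
  rw [h3, mul_inv_cancel_left] at h4
  exact h4.mono (Nat.mul_le_mul_left N h1)

end

variable {C : Type} [DecidableEq C] {S : Sys C} {Γ : Type} [Group Γ]

structure GenOK (T : TG S Γ) (Gs : Set Γ) : Prop where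
  hz : T.z ∈ Gs
  hb1 : ∀ c : C, T.lat c (1, 0) ∈ Gs
  hb2 : ∀ c : C, T.lat c (0, 1) ∈ Gs
  hl : ∀ (c : C) (r : Role), T.ell c r ∈ Gs ∨ T.ell c r = 1

theorem genOK_gens (T : TG S Γ) : GenOK T T.gens where
  hz := Or.inl rfl
  hb1 c := Or.inr (Or.inl ⟨c, rfl⟩)
  hb2 c := Or.inr (Or.inr (Or.inl ⟨c, rfl⟩))
  hl c r := Or.inl (Or.inr (Or.inr (Or.inr ⟨c, r, rfl⟩)))

def TG.gel (T : TG S Γ) (c : C) (b : List (Step C)) (r d : Role) (x : ℤ × ℤ) : Γ :=
  T.nfH b * (T.ell c r)⁻¹ * T.lat c x * T.ell c d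

theorem TG.gel_elem (T : TG S Γ) (c : C) (b : List (Step C)) (r d : Role) (x : ℤ × ℤ) :
    T.nf (elem S c (b, r) d x) = T.gel c b r d x := T.nf_elem c (b, r) d x

theorem TG.gel_cons (T : TG S Γ) (c : C) (b : List (Step C)) (r d : Role) (i s : ℤ) :
    T.nf (⟨c, r, d, i⟩ :: b, s) = T.gel c b r d (S.rep c d i + sm s (S.vec c d)) := by
  have h3 := T.rel_zpow c d s
  simp only [TG.nf, TG.nfH, TG.gel, T.lat_add, mul_assoc, h3]

theorem TG.gel_base (T : TG S Γ) (c : C) (b : List (Step C)) (r : Role) (s : ℤ) :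
    T.nf (b, s) = T.gel c b r r (sm s (S.vec c r)) := by
  have h3 := T.rel_zpow c r s
  simp only [TG.nf, TG.gel, mul_assoc, h3, inv_mul_cancel_left]

theorem GenOK.lat {T : TG S Γ} {Gs : Set Γ} (h : GenOK T Gs) (c : C) (v : ℤ × ℤ) :
    WL Gs (v.1.natAbs + v.2.natAbs) (T.lat c v) := by
  have e : v = sm v.1 (1, 0) + sm v.2 (0, 1) := by ext <;> simp [sm]
  have : T.lat c v = (T.lat c (1, 0)) ^ v.1 * (T.lat c (0, 1)) ^ v.2 := by
    conv_lhs => rw [e]
    rw [T.lat_add, T.lat_sm, T.lat_sm]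
  rw [this]
  exact ((WL.gen (h.hb1 c)).zpow _).mul ((WL.gen (h.hb2 c)).zpow _)

theorem GenOK.ell {T : TG S Γ} {Gs : Set Γ} (h : GenOK T Gs) (c : C) (r : Role) :
    WL Gs 1 (T.ell c r) := by
  rcases h.hl c r with h | h
  · exact WL.gen h
  · rw [h]; exact WL.one 1

theorem near_gel {T : TG S Γ} {Gs : Set Γ} (h : GenOK T Gs) (c : C) (b : List (Step C))
    (r d1 d2 : Role) (x1 x2 : ℤ × ℤ) (D : ℕ) (h1 : |x2.1 - x1.1| ≤ D) (h2 : |x2.2 - x1.2| ≤ D) :
    Near Gs (2 * D + 2) (T.gel c b r d1 x1) (T.gel c b r d2 x2) := by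
  have e : (T.gel c b r d1 x1)⁻¹ * T.gel c b r d2 x2 =
      (T.ell c d1)⁻¹ * T.lat c (x2 - x1) * T.ell c d2 := by
    rw [T.lat_sub]; unfold TG.gel; group
  unfold Near
  rw [e]
  refine (((h.ell c d1).inv.mul (h.lat c (x2 - x1))).mul (h.ell c d2)).mono ?_
  rw [abs_le] at h1 h2
  have h3 : (x2 - x1).1.natAbs ≤ D := by
    have : (x2 - x1).1 = x2.1 - x1.1 := rfl
    rw [this]; omega
  have h4 : (x2 - x1).2.natAbs ≤ D := by
    have : (x2 - x1).2 = x2.2 - x1.2 := rfl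
    rw [this]; omega
  omega

theorem near_ver {T : TG S Γ} {Gs : Set Γ} (h : GenOK T Gs) (b : List (Step C)) (s1 s2 : ℤ)
    (D : ℕ) (h1 : |s2 - s1| ≤ D) : Near Gs D (T.nf (b, s1)) (T.nf (b, s2)) := by
  have e : (T.nf (b, s1))⁻¹ * T.nf (b, s2) = T.z ^ (s2 - s1) := by
    simp only [TG.nf]
    group
  unfold Near
  rw [e]
  rw [abs_le] at h1
  exact ((WL.gen h.hz).zpow _).mono (by omega)

end Pool.Agent.W392.QI
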