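import Pool.Agent.W392.QI.Comb
import Pool.Agent.W392.QI.WL

set_option autoImplicit false
set_option linter.unusedSectionVars false
set_option linter.unusedSimpArgs false

/-! Linear estimates. -/

namespace Pool.Agent.W392.QI

def Compat (o : Opt) (c : CG) : Prop := o = Opt.V ↔ c = CG.V

theorem compat_optOf (κ : KG) (μ : ℝ) : Compat (optOf κ μ).1 κ.1 := by
  obtain ⟨c, r⟩ := κ
  cases c
  · simp [Compat, optOf]
  · cases r <;> simp only [optOf] <;> split_ifs <;> simp [Compat]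

theorem emod_le (i : ℤ) : |((i % 2 : ℤ) : ℝ)| ≤ 1 := by
  rcases Int.emod_two_eq i with h | h <;> rw [h] <;> norm_num

theorem emod_eq (i : ℤ) : (i : ℝ) = 2 * ((i / 2 : ℤ) : ℝ) + ((i % 2 : ℤ) : ℝ) := by
  exact_mod_cast (Int.mul_ediv_add_emod i 2).symm

theorem kabs {o : Opt} {k : ℝ} (h : Rng o k) : |k| ≤ 8 := by
  cases o <;> obtain ⟨h1, h2⟩ := h <;> linarith

theorem M1 {o : Opt} {c : CG} (hc : Compat o c) {k : ℝ} (hk : Rng o k) (d : Role) (i s : ℤ) :
    |idxR (sg o d) (matA o k (toR (SG.rep c d i + sm s (SG.vec c d)))) - slo o d * k * i| ≤ 8 := by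
  have hk8 := kabs hk
  cases c
  · have ho : o = Opt.V := hc.mpr rfl
    subst ho
    have : idxR (sg Opt.V d) (matA Opt.V k (toR (SG.rep CG.V d i + sm s (SG.vec CG.V d)))) -
        slo Opt.V d * k * i = 0 := by
      cases d <;> simp [sg, idxR, matA, toR, SG, repV, vecV, sm, slo] <;> ring
    rw [this]; norm_num
  · have ho : o ≠ Opt.V := fun h => absurd (hc.mp h) (by simp)
    cases o
    · exact absurd rfl ho
    · obtain ⟨k1, k2⟩ := hk
      cases d
      · have : idxR (sg Opt.A Role.r0) (matA Opt.A k (toR (SG.rep CG.E Role.r0 i +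
            sm s (SG.vec CG.E Role.r0)))) - slo Opt.A Role.r0 * k * i =
            - (k / 2 * ((i % 2 : ℤ) : ℝ)) := by
          simp only [sg, idxR, matA, toR, SG, repE, vecE, sm, slo, Prod.fst_add, Prod.snd_add,
            mul_zero, add_zero]
          conv_lhs => rw [emod_eq i]
          ring
        rw [this, abs_neg, abs_mul, abs_div, abs_two]
        have := emod_le i
        nlinarith [abs_nonneg k, abs_nonneg (((i % 2 : ℤ) : ℝ))]
      · have : idxR (sg Opt.A Role.r1) (matA Opt.A k (toR (SG.rep CG.E Role.r1 i +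
            sm s (SG.vec CG.E Role.r1)))) - slo Opt.A Role.r1 * k * i = 0 := by
          simp [sg, idxR, matA, toR, SG, repE, vecE, sm, slo]; ring
        rw [this]; norm_num
      · have : idxR (sg Opt.A Role.r2) (matA Opt.A k (toR (SG.rep CG.E Role.r2 i +
            sm s (SG.vec CG.E Role.r2)))) - slo Opt.A Role.r2 * k * i = 0 := by
          simp [sg, idxR, matA, toR, SG, repE, vecE, sm, slo]; ring
        rw [this]; norm_num
    · obtain ⟨k1, k2⟩ := hk
      cases d
      · have : idxR (sg Opt.B Role.r0) (matA Opt.B k (toR (SG.rep CG.E Role.r0 i +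
            sm s (SG.vec CG.E Role.r0)))) - slo Opt.B Role.r0 * k * i =
            - (k * ((i % 2 : ℤ) : ℝ)) := by
          simp only [sg, idxR, matA, toR, SG, repE, vecE, sm, slo, Prod.fst_add, Prod.snd_add,
            mul_zero, add_zero]
          conv_lhs => rw [emod_eq i]
          ring
        rw [this, abs_neg, abs_mul]
        have := emod_le i
        nlinarith [abs_nonneg k, abs_nonneg (((i % 2 : ℤ) : ℝ))]
      · have : idxR (sg Opt.B Role.r1) (matA Opt.B k (toR (SG.rep CG.E Role.r1 i +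
            sm s (SG.vec CG.E Role.r1)))) - slo Opt.B Role.r1 * k * i = 0 := by
          simp [sg, idxR, matA, toR, SG, repE, vecE, sm, slo]; ring
        rw [this]; norm_num
      · have : idxR (sg Opt.B Role.r2) (matA Opt.B k (toR (SG.rep CG.E Role.r2 i +
            sm s (SG.vec CG.E Role.r2)))) - slo Opt.B Role.r2 * k * i = 0 := by
          simp [sg, idxR, matA, toR, SG, repE, vecE, sm, slo]; ring
        rw [this]; norm_num
    · obtain ⟨k1, k2⟩ := hk
      cases d
      · have : idxR (sg Opt.C Role.r0) (matA Opt.C k (toR (SG.rep CG.E Role.r0 i +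
            sm s (SG.vec CG.E Role.r0)))) - slo Opt.C Role.r0 * k * i =
            (k * ((i % 2 : ℤ) : ℝ)) := by
          simp only [sg, idxR, matA, toR, SG, repE, vecE, sm, slo, Prod.fst_add, Prod.snd_add,
            mul_zero, add_zero]
          conv_lhs => rw [emod_eq i]
          ring
        rw [this, abs_mul]
        have := emod_le i
        nlinarith [abs_nonneg k, abs_nonneg (((i % 2 : ℤ) : ℝ))]
      · have : idxR (sg Opt.C Role.r1) (matA Opt.C k (toR (SG.rep CG.E Role.r1 i +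
            sm s (SG.vec CG.E Role.r1)))) - slo Opt.C Role.r1 * k * i = 0 := by
          simp [sg, idxR, matA, toR, SG, repE, vecE, sm, slo]; ring
        rw [this]; norm_num
      · have : idxR (sg Opt.C Role.r2) (matA Opt.C k (toR (SG.rep CG.E Role.r2 i +
            sm s (SG.vec CG.E Role.r2)))) - slo Opt.C Role.r2 * k * i = 0 := by
          simp [sg, idxR, matA, toR, SG, repE, vecE, sm, slo]; ring
        rw [this]; norm_num

theorem M2 {o : Opt} {c : CG} (hc : Compat o c) (k : ℝ) (d : Role) (i s : ℤ) :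
    verR (sg o d) (matA o k (toR (SG.rep c d i + sm s (SG.vec c d)))) =
      verR (sg o d) (matA o k (toR (SG.rep c d i))) + lev o d * k * s := by
  cases c
  · have ho : o = Opt.V := hc.mpr rfl
    subst ho
    cases d <;> simp [sg, verR, matA, toR, SG, repV, vecV, sm, lev] <;> ring
  · have ho : o ≠ Opt.V := fun h => absurd (hc.mp h) (by simp)
    cases o
    · exact absurd rfl ho
    all_goals cases d <;> simp [sg, verR, matA, toR, SG, repE, vecE, sm, lev] <;> ring

noncomputable def FF (s : St) (κ : KG) (x : ℤ × ℤ) : ℝ × ℝ :=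
  ((matA (oo s κ) (kk s κ) (toR x)).1 + s.y * (vecR (sg (oo s κ) κ.2)).1,
    (matA (oo s κ) (kk s κ) (toR x)).2 + s.y * (vecR (sg (oo s κ) κ.2)).2)

theorem idxR_lin (r : Role) (a b : ℝ × ℝ) (y : ℝ) :
    idxR r (a.1 + y * b.1, a.2 + y * b.2) = idxR r a + y * idxR r b := by
  cases r <;> simp [idxR] <;> ring

theorem verR_lin (r : Role) (a b : ℝ × ℝ) (y : ℝ) :
    verR r (a.1 + y * b.1, a.2 + y * b.2) = verR r a + y * verR r b := by
  cases r <;> simp [verR] <;> ring

theorem FF_idx {s : St} (g : Good s) (κ : KG) (d : Role) (i t : ℤ) :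
    |idxR (sg (oo s κ) d) (FF s κ (SG.rep κ.1 d i + sm t (SG.vec κ.1 d))) -
      (KK s κ d * i + TH s κ d)| ≤ 8 := by
  have h := M1 (compat_optOf κ s.mu) (optOf_rng κ g.lo g.hi) d i t
  unfold FF
  rw [idxR_lin]
  unfold KK TH
  have e : ∀ a b c : ℝ, a + c - (b + c) = a - b := fun a b c => by ring
  rw [e]
  exact h

theorem FF_ver (s : St) (κ : KG) (d : Role) (i t : ℤ) :
    verR (sg (oo s κ) d) (FF s κ (SG.rep κ.1 d i + sm t (SG.vec κ.1 d))) =
      LV s κ d * t + YY s κ d i := by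
  have h := M2 (compat_optOf κ s.mu) (kk s κ) d i t
  unfold FF
  rw [verR_lin]
  unfold LV YY
  have h' : verR (sg (oo s κ) d) (matA (oo s κ) (kk s κ)
      (toR (SG.rep κ.1 d i + sm t (SG.vec κ.1 d)))) =
      verR (sg (oo s κ) d) (matA (oo s κ) (kk s κ) (toR (SG.rep κ.1 d i))) +
        lev (oo s κ) d * kk s κ * t := h
  rw [h']
  ring

theorem YY_zero (s : St) (κ : KG) : YY s κ κ.2 0 = s.y := by
  unfold YY
  rw [SG.rep_zero, verR_vecR]
  have : ∀ (o : Opt) (k : ℝ) (r : Role), verR r (matA o k (toR 0)) = 0 := by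
    intro o k r
    cases o <;> cases r <;> simp [verR, matA, toR]
  rw [this]
  ring

theorem LV_self (s : St) (κ : KG) : LV s κ κ.2 = s.mu := optOf_lev κ s.mu

/-- real closeness of a lattice point -/
def Cl (D : ℝ) (x : ℤ × ℤ) (w : ℝ × ℝ) : Prop := |(x.1 : ℝ) - w.1| ≤ D ∧ |(x.2 : ℝ) - w.2| ≤ D

theorem Cl_of {r : Role} {x : ℤ × ℤ} {w : ℝ × ℝ} {a b : ℝ}
    (h1 : |(idxV r x : ℝ) - idxR r w| ≤ a) (h2 : |(verV r x : ℝ) - verR r w| ≤ b) :
    Cl (a + 2 * b) x w := by
  have ha : 0 ≤ a := (abs_nonneg _).trans h1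
  have hb : 0 ≤ b := (abs_nonneg _).trans h2
  rw [abs_le] at h1 h2
  unfold Cl
  rw [abs_le, abs_le]
  cases r <;> simp only [idxV, verV, idxR, verR] at h1 h2 <;> push_cast at h1 h2 <;>
    refine ⟨⟨?_, ?_⟩, ⟨?_, ?_⟩⟩ <;> linarith [h1.1, h1.2, h2.1, h2.2]

theorem matA_lip {o : Opt} {k : ℝ} (hk : Rng o k) {x y : ℤ × ℤ} (h1 : |y.1 - x.1| ≤ 1)
    (h2 : |y.2 - x.2| ≤ 1) :
    |(matA o k (toR y)).1 - (matA o k (toR x)).1| ≤ 16 ∧
    |(matA o k (toR y)).2 - (matA o k (toR x)).2| ≤ 16 := by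
  have h1' : |(y.1 : ℝ) - x.1| ≤ 1 := by exact_mod_cast h1
  have h2' : |(y.2 : ℝ) - x.2| ≤ 1 := by exact_mod_cast h2
  have hk8 := kabs hk
  have key : ∀ (a t : ℝ), |a| ≤ 8 → |t| ≤ 1 → |a * t| ≤ 8 := by
    intro a t ha ht
    rw [abs_mul]
    nlinarith [abs_nonneg a, abs_nonneg t]
  have k1 := key k _ hk8 h1'
  have k2 := key k _ hk8 h2'
  rw [abs_le] at k1 k2
  cases o
  · simp only [matA, toR]
    constructor <;> rw [abs_le] <;> constructor <;> linarith [k1.1, k1.2, k2.1, k2.2]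
  · simp only [matA, toR]
    constructor <;> rw [abs_le] <;> constructor <;> linarith [k1.1, k1.2, k2.1, k2.2]
  · simp only [matA, toR]
    constructor <;> rw [abs_le] <;> constructor <;> linarith [k1.1, k1.2, k2.1, k2.2]
  · simp only [matA, toR]
    constructor <;> rw [abs_le] <;> constructor <;> linarith [k1.1, k1.2, k2.1, k2.2]

theorem abs_le_of_mul {k v E : ℝ} (hk : 2 ≤ |k|) (h : |k * v| ≤ E) : |v| ≤ E / 2 := by
  rw [abs_mul] at h
  nlinarith [abs_nonneg v]

theorem matA_colip {o : Opt} {k : ℝ} (hk : Rng o k) {x y : ℤ × ℤ} {E : ℝ}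
    (h1 : |(matA o k (toR y)).1 - (matA o k (toR x)).1| ≤ E)
    (h2 : |(matA o k (toR y)).2 - (matA o k (toR x)).2| ≤ E) :
    |((y.1 - x.1 : ℤ) : ℝ)| ≤ 4 * E ∧ |((y.2 - x.2 : ℤ) : ℝ)| ≤ 4 * E := by
  have hE : 0 ≤ E := (abs_nonneg _).trans h1
  push_cast
  cases o
  · obtain ⟨k1, k2⟩ := hk
    simp only [matA, toR] at h1 h2
    rw [← mul_sub] at h1 h2
    have a1 := abs_le_of_mul k1 h1
    have a2 := abs_le_of_mul k1 h2
    constructor <;> linarith
  · obtain ⟨k1, k2⟩ := hk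
    simp only [matA, toR] at h1 h2
    rw [← mul_sub] at h1 h2
    have a1 := abs_le_of_mul k1 h1
    have e : 2 * k / 3 * ((y.1 : ℝ) - x.1) = k * (2 / 3 * ((y.1 : ℝ) - x.1)) := by ring
    rw [e] at h2
    have a2 := abs_le_of_mul k1 h2
    rw [abs_mul, abs_of_pos (by norm_num : (0 : ℝ) < 2 / 3)] at a2
    constructor <;> linarith
  · obtain ⟨k1, k2⟩ := hk
    simp only [matA, toR] at h1 h2
    rw [← mul_sub] at h1 h2
    have e : k / 3 * ((y.1 : ℝ) - x.1) = k * (1 / 3 * ((y.1 : ℝ) - x.1)) := by ring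
    rw [e] at h1
    have a1 := abs_le_of_mul (by linarith : 2 ≤ |k|) h1
    rw [abs_mul, abs_of_pos (by norm_num : (0 : ℝ) < 1 / 3)] at a1
    have e : 2 * k * ((y.2 : ℝ) - x.2) = k * (2 * ((y.2 : ℝ) - x.2)) := by ring
    rw [e] at h2
    have a2 := abs_le_of_mul (by linarith : 2 ≤ |k|) h2
    rw [abs_mul, abs_two] at a2
    constructor <;> linarith
  · obtain ⟨k1, k2⟩ := hk
    simp only [matA, toR] at h1 h2
    have e : -(2 * k * (y.2 : ℝ)) - -(2 * k * x.2) = k * (-2 * ((y.2 : ℝ) - x.2)) := by ring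
    rw [e] at h2
    have a2' := h2
    have a2 := abs_le_of_mul (by linarith : 2 ≤ |k|) h2
    rw [abs_mul, abs_neg, abs_two] at a2
    have e : k / 3 * (y.1 : ℝ) + k * y.2 - (k / 3 * x.1 + k * x.2) =
      k * (1 / 3 * ((y.1 : ℝ) - x.1)) + k * ((y.2 : ℝ) - x.2) := by ring
    rw [e] at h1
    have h3 : |k * ((y.2 : ℝ) - x.2)| ≤ E / 2 := by
      have e2 : k * (-2 * ((y.2 : ℝ) - x.2)) = -2 * (k * ((y.2 : ℝ) - x.2)) := by ring
      rw [e2, abs_mul, abs_neg, abs_two] at a2'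
      linarith
    have h4 : |k * (1 / 3 * ((y.1 : ℝ) - x.1))| ≤ 3 / 2 * E := by
      have := abs_sub (k * (1 / 3 * ((y.1 : ℝ) - x.1)) + k * ((y.2 : ℝ) - x.2))
        (k * ((y.2 : ℝ) - x.2))
      rw [add_sub_cancel_right] at this
      linarith
    have h5 : 3 * |1 / 3 * ((y.1 : ℝ) - x.1)| ≤ 3 / 2 * E := by
      rw [abs_mul k] at h4
      nlinarith [abs_nonneg (1 / 3 * ((y.1 : ℝ) - x.1))]
    rw [abs_mul, abs_of_pos (by norm_num : (0 : ℝ) < 1 / 3)] at h5
    constructor <;> linarith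

end Pool.Agent.W392.QI
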