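import Pool.Agent.W392.QI.Lin

set_option autoImplicit false
set_option linter.unusedSectionVars false
set_option linter.unusedSimpArgs false

/-! Metric estimates for the matching. -/

namespace Pool.Agent.W392.QI

theorem cell_bound : ∀ (l : LG), Valid l → ∀ n, (st l).cell n → |n| ≤ 10
  | [], _, n, hn => by
    have : n = 0 := hn
    rw [this]; norm_num
  | t :: l, hv, n, hn => by
    have g := good_st l hv.1
    have hK := slo_ok g (t.c, t.r) t.d
    have hn' : I (KK (st l) (t.c, t.r) t.d) (TH (st l) (t.c, t.r) t.d)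
        (J (KK (st l) (t.c, t.r) t.d) (TH (st l) (t.c, t.r) t.d) t.i + n) = t.i := hn
    have h1 := I_close hK.1 (TH (st l) (t.c, t.r) t.d)
      (J (KK (st l) (t.c, t.r) t.d) (TH (st l) (t.c, t.r) t.d) t.i + n)
    rw [hn'] at h1
    have h2 := J_close (KK (st l) (t.c, t.r) t.d) (TH (st l) (t.c, t.r) t.d) t.i
    rw [abs_le] at h1 h2
    push_cast at h1
    have h3 : |(n : ℝ)| ≤ 10 := by
      rw [abs_le]
      constructor <;> linarith [h1.1, h1.2, h2.1, h2.2, hK.2]
    exact_mod_cast h3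

theorem code_bound : ∃ N : ℕ, ∀ n : ℤ, |n| ≤ 10 → ∀ κ : KH, code (n, κ) ≤ N := by
  have hf : (Set.Icc (-10 : ℤ) 10 ×ˢ (Set.univ : Set KH)).Finite :=
    (Set.finite_Icc _ _).prod Set.finite_univ
  obtain ⟨N, hN⟩ := (hf.image (fun x => codeE x)).bddAbove
  refine ⟨N, fun n hn κ => ?_⟩
  rw [abs_le] at hn
  have := hN (Set.mem_image_of_mem (fun x => codeE x)
    (Set.mk_mem_prod (Set.mem_Icc.mpr hn) (Set.mem_univ κ)))
  unfold code
  exact_mod_cast this

noncomputable def PB : ℕ := Classical.choose code_bound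
theorem code_le {n : ℤ} (hn : |n| ≤ 10) (κ : KH) : code (n, κ) ≤ PB :=
  Classical.choose_spec code_bound n hn κ

variable {ΓG ΓH : Type} [Group ΓG] [Group ΓH] {TG' : TG SG ΓG} {TH' : TG SH ΓH}
  {Gs : Set ΓG} {Hs : Set ΓH}

/-- moving along the hubs of a plane -/
theorem near_shift (hH : GenOK TH' Hs) (b : LH) (n : ℤ) (s : ℤ) (hn : |n| ≤ 10) :
    Near Hs 22 (TH'.nf (b, s)) (TH'.nf (shiftb b n, s)) := by
  cases b with
  | nil => exact Near.refl _ _
  | cons t b =>
    obtain ⟨c, r, d, i⟩ := t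
    show Near Hs 22 (TH'.nf (⟨c, r, d, i⟩ :: b, s)) (TH'.nf (⟨c, r, d, i + n⟩ :: b, s))
    rw [TH'.gel_cons, TH'.gel_cons]
    have hab : |(0 : ℤ)| ≤ 10 := by norm_num
    have key : ∀ r : Role, |(repV r (i + n) + sm s (vecV r)).1 - (repV r i + sm s (vecV r)).1| ≤ 10 ∧
        |(repV r (i + n) + sm s (vecV r)).2 - (repV r i + sm s (vecV r)).2| ≤ 10 := by
      intro r
      cases r <;> simp [repV, vecV, sm, hn]
    exact near_gel hH c b r d d _ _ 10 (key d).1 (key d).2

noncomputable def NT : ℕ := (2 * (8 * (PB + 1) + 2) + 2) + 22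

theorem J_bound {K : ℝ} (hK : |K| ≤ 8) {p : ℤ} (h1 : 0 ≤ p) (h2 : p ≤ (PB : ℤ) + 1) :
    |J K 0 p| ≤ ((8 * (PB + 1) + 2 : ℕ) : ℤ) := by
  have h3 := J_close K 0 p
  have hp : |(p : ℝ)| ≤ PB + 1 := by
    rw [abs_of_nonneg (by exact_mod_cast h1)]
    exact_mod_cast h2
  have h4 : |K * p| ≤ 8 * (PB + 1) := by
    rw [abs_mul]
    exact mul_le_mul hK hp (abs_nonneg _) (by norm_num)
  have h5 : |(J K 0 p : ℝ)| ≤ 8 * (PB + 1) + 2 := by
    rw [abs_le] at h3 h4 ⊢
    constructor <;> linarith [h3.1, h3.2, h4.1, h4.2]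
  exact_mod_cast h5

theorem rep_small (r : Role) (j : ℤ) (D : ℤ) (hj : |j| ≤ D) (s : ℤ) :
    |(sm s (vecV r)).1 - (repV r j + sm s (vecV r)).1| ≤ D ∧
      |(sm s (vecV r)).2 - (repV r j + sm s (vecV r)).2| ≤ D := by
  have hD : 0 ≤ D := (abs_nonneg j).trans hj
  cases r <;> simp [repV, vecV, sm, hj, hD]

theorem transport (hH : GenOK TH' Hs) : ∀ (l : LG), Valid l → ∀ κ : KG, own l ≠ some κ →
    ∀ s : ℤ, Near Hs NT (TH'.nf ((st l).b, s)) (TH'.nf ((ph (st l) κ).1, s)) := by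
  intro l hv κ hκ s
  by_cases ho : overr (st l) κ
  · obtain ⟨e, he, rfl⟩ := ho
    rw [ph_of_ex he]
    cases l with
    | nil => exact absurd he (by simp [st])
    | cons t l =>
      have he' : exOf (st l) l t = some e := he
      obtain ⟨a1, a2, a3, a4, a5, a6, a7⟩ := exOf_some he'
      have g := good_st l hv.1
      have hK := slo_ok g (t.c, t.r) t.d
      have hno : ¬ overr (st l) (t.c, t.r) := by
        rintro ⟨e', -, h⟩
        have h2 := kstar_fst l
        rw [← a1, h] at h2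
        exact absurd h2 (by simp)
      have hph := ph_of_not hno
      have hb : (st (t :: l)).b = ⟨ncl (st l).b (t.c, t.r), sg (oo (st l) (t.c, t.r)) t.r,
          sg (oo (st l) (t.c, t.r)) t.r, J (KK (st l) (t.c, t.r) t.d) 0 t.i⟩ :: (st l).b := by
        show (_ :: _ : LH) = _
        rw [hph]
        dsimp only [nat]
        rw [a2]
        have : TH (st l) (t.c, t.r) t.r = 0 := TH_self (st l) (t.c, t.r)
        rw [this]
      rw [hb, a7]
      have hcb := cell_bound l hv.1 _ a4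
      have hcode : code (decode (t.i - 1)) = t.i - 1 := code_decode (by omega)
      have hcl := code_le hcb (decode (t.i - 1)).2
      rw [show ((decode (t.i - 1)).1, (decode (t.i - 1)).2) = decode (t.i - 1) from rfl,
        hcode] at hcl
      have hJ := J_bound hK.2 (p := t.i) (by omega) (by omega)
      have hr := rep_small (sg (oo (st l) (t.c, t.r)) t.r) _ _ hJ s
      refine Near.trans (h := TH'.nf ((st l).b, s)) ?_ (near_shift hH _ _ _ hcb)
      rw [TH'.gel_cons, TH'.gel_base (ncl (st l).b (t.c, t.r)) (st l).b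
        (sg (oo (st l) (t.c, t.r)) t.r) s]
      exact near_gel hH _ _ _ _ _ _ _ (8 * (PB + 1) + 2) hr.1 hr.2
  · rw [ph_of_not ho]
    exact Near.refl _ _

noncomputable def fX (p : LG × ℤ) : LH × ℤ :=
  ((st p.1).b, ⌊(st p.1).mu * p.2 + (st p.1).y⌋)

noncomputable def gX (p : LH × ℤ) : LG × ℤ :=
  (psi p.1, ⌊((p.2 : ℝ) - (st (psi p.1)).y) / (st (psi p.1)).mu⌋)

theorem fside (hH : GenOK TH' Hs) {l : LG} (hv : Valid l) {κ : KG} (hκ : own l ≠ some κ)
    (d : Role) (x : ℤ × ℤ) :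
    ∃ x' : ℤ × ℤ, Cl 11 x' (FF (st l) κ x) ∧
      Near Hs NT (TH'.nf (fX (elem SG κ.1 (l, κ.2) d x)))
        (TH'.gel (ph (st l) κ).2.1 (ph (st l) κ).1 (ph (st l) κ).2.2 (sg (oo (st l) κ) d) x') := by
  have g := good_st l hv
  have hK := slo_ok g κ d
  have hx := SG.decomp κ.1 d x
  set i := SG.idx κ.1 d x with hi
  set s := SG.ver κ.1 d x with hs
  unfold elem
  split_ifs with h
  · obtain ⟨h1, h2⟩ := h
    dsimp only at h1
    subst h1
    rw [← hi] at h2
    refine ⟨sm ⌊(st l).mu * s + (st l).y⌋ (vecV (sg (oo (st l) κ) κ.2)), ?_, ?_⟩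
    · have e1 := FF_idx g κ κ.2 i s
      have e2 := FF_ver (st l) κ κ.2 i s
      rw [hx] at e1 e2
      rw [h2, TH_self] at e1
      rw [h2, YY_zero, LV_self] at e2
      have h3 : idxV (sg (oo (st l) κ) κ.2)
          (sm ⌊(st l).mu * s + (st l).y⌋ (vecV (sg (oo (st l) κ) κ.2))) = 0 :=
        idx_smul SH 0 _ _
      have h4 : verV (sg (oo (st l) κ) κ.2)
          (sm ⌊(st l).mu * s + (st l).y⌋ (vecV (sg (oo (st l) κ) κ.2))) =
            ⌊(st l).mu * s + (st l).y⌋ := ver_smul SH 0 _ _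
      have h5 := Cl_of (r := sg (oo (st l) κ) κ.2)
        (x := sm ⌊(st l).mu * s + (st l).y⌋ (vecV (sg (oo (st l) κ) κ.2)))
        (w := FF (st l) κ x) (a := 9) (b := 1) ?_ ?_
      · norm_num at h5
        exact h5
      · rw [h3]
        rw [abs_le] at e1 ⊢
        push_cast at e1 ⊢
        constructor <;> linarith [e1.1, e1.2]
      · rw [h4, e2]
        have f1 := Int.floor_le ((st l).mu * s + (st l).y)
        have f2 := Int.lt_floor_add_one ((st l).mu * s + (st l).y)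
        rw [abs_le]
        constructor <;> linarith
    · rw [ph_role]
      have h6 := TH'.gel_base (ph (st l) κ).2.1 (ph (st l) κ).1 (sg (oo (st l) κ) κ.2)
        ⌊(st l).mu * s + (st l).y⌋
      have h7 : SH.vec (ph (st l) κ).2.1 (sg (oo (st l) κ) κ.2) = vecV (sg (oo (st l) κ) κ.2) := rfl
      rw [h7] at h6
      rw [← h6]
      exact transport hH l hv κ hκ _
  · refine ⟨repV (sg (oo (st l) κ) d) (J (KK (st l) κ d) (TH (st l) κ d) i) +
      sm ⌊LV (st l) κ d * s + YY (st l) κ d i⌋ (vecV (sg (oo (st l) κ) d)), ?_, ?_⟩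
    · have e1 := FF_idx g κ d i s
      have e2 := FF_ver (st l) κ d i s
      rw [hx] at e1 e2
      have h3 := idxV_eq (sg (oo (st l) κ) d) (J (KK (st l) κ d) (TH (st l) κ d) i)
        ⌊LV (st l) κ d * s + YY (st l) κ d i⌋
      have h4 := verV_eq (sg (oo (st l) κ) d) (J (KK (st l) κ d) (TH (st l) κ d) i)
        ⌊LV (st l) κ d * s + YY (st l) κ d i⌋
      have h5 := Cl_of (r := sg (oo (st l) κ) d)
        (x := repV (sg (oo (st l) κ) d) (J (KK (st l) κ d) (TH (st l) κ d) i) +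
          sm ⌊LV (st l) κ d * s + YY (st l) κ d i⌋ (vecV (sg (oo (st l) κ) d)))
        (w := FF (st l) κ x) (a := 9) (b := 1) ?_ ?_
      · norm_num at h5
        exact h5
      · rw [h3]
        have h8 := J_close (KK (st l) κ d) (TH (st l) κ d) i
        rw [abs_le] at e1 h8 ⊢
        constructor <;> linarith [e1.1, e1.2, h8.1, h8.2]
      · rw [h4, e2]
        have f1 := Int.floor_le (LV (st l) κ d * s + YY (st l) κ d i)
        have f2 := Int.lt_floor_add_one (LV (st l) κ d * s + YY (st l) κ d i)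
        rw [abs_le]
        constructor <;> linarith
    · refine Near.of_eq ?_
      exact TH'.gel_cons (ph (st l) κ).2.1 (ph (st l) κ).1 (ph (st l) κ).2.2
        (sg (oo (st l) κ) d) (J (KK (st l) κ d) (TH (st l) κ d) i)
        ⌊LV (st l) κ d * s + YY (st l) κ d i⌋

end Pool.Agent.W392.QI
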