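import Pool.Agent.W392.QI.Metric

set_option autoImplicit false
set_option linter.unusedSectionVars false
set_option linter.unusedSimpArgs false

/-! Metric estimates for the inverse, and the quasi-isometry. -/

namespace Pool.Agent.W392.QI

variable {ΓG ΓH : Type} [Group ΓG] [Group ΓH]

theorem floor_sub_le (a b : ℝ) (D : ℕ) (h : |a - b| ≤ D) : |⌊a⌋ - ⌊b⌋| ≤ ((D + 1 : ℕ) : ℤ) := by
  have f1 := Int.floor_le a
  have f2 := Int.lt_floor_add_one a
  have f3 := Int.floor_le b
  have f4 := Int.lt_floor_add_one b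
  rw [abs_le] at h ⊢
  have h1 : (⌊a⌋ : ℝ) - ⌊b⌋ ≤ D + 1 := by linarith [h.2]
  have h2 : -((D : ℝ) + 1) ≤ (⌊a⌋ : ℝ) - ⌊b⌋ := by linarith [h.1]
  constructor
  · exact_mod_cast h2
  · exact_mod_cast h1

theorem div_floor_close {m a : ℝ} (hm : 2 ≤ |m|) (hm8 : |m| ≤ 8) : |a - m * ⌊a / m⌋| ≤ 8 := by
  have hm0 : m ≠ 0 := by
    intro h; rw [h] at hm; norm_num at hm
  have f1 := Int.floor_le (a / m)
  have f2 := Int.lt_floor_add_one (a / m)
  have h3 : a - m * ⌊a / m⌋ = m * (a / m - ⌊a / m⌋) := by field_simp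
  rw [h3, abs_mul]
  have h4 : |a / m - ⌊a / m⌋| ≤ 1 := by
    rw [abs_le]; constructor <;> linarith
  nlinarith [abs_nonneg m, abs_nonneg (a / m - ⌊a / m⌋)]

theorem kstar_cases (l : LG) : kstar l = (CG.E, Role.r1) ∨ kstar l = (CG.E, Role.r2) := by
  unfold kstar
  split_ifs
  · exact Or.inr rfl
  · exact Or.inl rfl

theorem YY_star {s : St} (g : Good s) {κ : KG} (hκ : κ = (CG.E, Role.r1) ∨ κ = (CG.E, Role.r2))
    (p : ℤ) : |YY s κ κ.2 p - s.y| ≤ 8 * |(p : ℝ)| := by
  have hr := optOf_rng κ g.lo g.hi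
  have hk := kabs hr
  have hrep : SG.rep κ.1 κ.2 p = (p, 0) := by
    rcases hκ with rfl | rfl <;> rfl
  unfold YY
  rw [verR_vecR, hrep, mul_one, add_sub_cancel_right]
  have key : ∀ (o : Opt) (k : ℝ), |k| ≤ 8 → ∀ r : Role,
      |verR r (matA o k (toR (p, 0)))| ≤ 8 * |(p : ℝ)| := by
    intro o k hk r
    have h0 : |k * (p : ℝ)| ≤ 8 * |(p : ℝ)| := by
      rw [abs_mul]
      exact mul_le_mul_of_nonneg_right hk (abs_nonneg _)
    have hp := abs_nonneg (p : ℝ)
    rw [abs_le] at h0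
    cases o <;> cases r <;> simp only [verR, matA, toR] <;> push_cast <;> rw [abs_le] <;>
      constructor <;> linarith [h0.1, h0.2]
  exact key _ _ hk _

noncomputable def NG : ℕ := 2 * (3 * (4 * (PB + 1) + 2) + (PB + 1)) + 2

theorem near_star {T : TG SG ΓG} {Gs : Set ΓG} (hG : GenOK T Gs) (l : LG) {κ : KG}
    (hκ : κ = (CG.E, Role.r1) ∨ κ = (CG.E, Role.r2)) (p : ℤ) (hp0 : 0 ≤ p) (hp : p ≤ (PB : ℤ) + 1)
    (s s' : ℤ) (hs : |s' - s| ≤ ((4 * (PB + 1) + 1 : ℕ) : ℤ)) :
    Near Gs NG (T.nf (l, s)) (T.nf (⟨κ.1, κ.2, κ.2, p⟩ :: l, s')) := by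
  rw [T.gel_cons, T.gel_base κ.1 l κ.2 s]
  have key : |(SG.rep κ.1 κ.2 p + sm s' (SG.vec κ.1 κ.2)).1 - (sm s (SG.vec κ.1 κ.2)).1| ≤
        ((3 * (4 * (PB + 1) + 2) + (PB + 1) : ℕ) : ℤ) ∧
      |(SG.rep κ.1 κ.2 p + sm s' (SG.vec κ.1 κ.2)).2 - (sm s (SG.vec κ.1 κ.2)).2| ≤
        ((3 * (4 * (PB + 1) + 2) + (PB + 1) : ℕ) : ℤ) := by
    rw [abs_le] at hs
    push_cast at hs ⊢
    rcases hκ with rfl | rfl
    · simp only [SG, repE, vecE, sm, Prod.fst_add, Prod.snd_add]
      constructor <;> rw [abs_le] <;> constructor <;> omega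
    · simp only [SG, repE, vecE, sm, Prod.fst_add, Prod.snd_add]
      constructor <;> rw [abs_le] <;> constructor <;> omega
  exact near_gel hG _ _ _ _ _ _ _ _ key.1 key.2

theorem gside {T : TG SG ΓG} {Gs : Set ΓG} (hG : GenOK T Gs) {b : LH} (hv : Valid b) {κH : KH}
    (hκ : own b ≠ some κH) (d' : Role) (x' : ℤ × ℤ) :
    ∃ x : ℤ × ℤ, Cl 33 x' (FF (st (plane (psi b) b κH).1) (plane (psi b) b κH).2 x) ∧
      Near Gs NG (T.nf (gX (elem SH κH.1 (b, κH.2) d' x')))
        (T.gel (plane (psi b) b κH).2.1 (plane (psi b) b κH).1 (plane (psi b) b κH).2.2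
          (sg (oo (st (plane (psi b) b κH).1) (plane (psi b) b κH).2) d') x) := by
  obtain ⟨v, n, hn, hb⟩ := psi_spec b hv
  obtain ⟨p1, p2, p3⟩ := plane_spec v hn hb hκ
  have g := good_st _ p1
  have g0 := good_st _ v
  have hrole := ph_role (st (plane (psi b) b κH).1) (plane (psi b) b κH).2
  rw [p3] at hrole
  dsimp only at hrole
  have hvx := ver_smul SH κH.1
  have hx := SH.decomp κH.1 d' x'
  unfold elem
  split_ifs with h
  · obtain ⟨h1, h2⟩ := h
    dsimp only at h1
    -- the vertical coordinate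
    set s' := SH.ver κH.1 d' x' with hs'
    set π := plane (psi b) b κH with hπ
    have hd : sg (oo (st π.1) π.2) d' = π.2.2 := by rw [h1, hrole, sg_sg]
    refine ⟨sm ⌊((s' : ℝ) - (st π.1).y) / (st π.1).mu⌋ (SG.vec π.2.1 π.2.2), ?_, ?_⟩
    · have e1 := FF_idx g π.2 π.2.2 0 ⌊((s' : ℝ) - (st π.1).y) / (st π.1).mu⌋
      have e2 := FF_ver (st π.1) π.2 π.2.2 0 ⌊((s' : ℝ) - (st π.1).y) / (st π.1).mu⌋
      rw [SG.rep_zero, zero_add] at e1 e2
      rw [TH_self] at e1
      rw [YY_zero, LV_self] at e2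
      rw [← hrole, ← h1] at e1 e2
      have e3 := div_floor_close (a := (s' : ℝ) - (st π.1).y) g.lo g.hi
      have h5 := Cl_of (r := d') (x := x')
        (w := FF (st π.1) π.2 (sm ⌊((s' : ℝ) - (st π.1).y) / (st π.1).mu⌋
          (SG.vec π.2.1 π.2.2))) (a := 17) (b := 8) ?_ ?_
      · norm_num at h5
        exact h5
      · have h6 : idxV d' x' = 0 := h2
        rw [h6]
        rw [abs_le] at e1 ⊢
        push_cast at e1 ⊢
        constructor <;> linarith [e1.1, e1.2]
      · have h6 : verV d' x' = s' := rfl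
        rw [h6, e2]
        rw [abs_le] at e3 ⊢
        constructor <;> linarith [e3.1, e3.2]
    · rw [hd]
      have h6 := T.gel_base π.2.1 π.1 π.2.2 ⌊((s' : ℝ) - (st π.1).y) / (st π.1).mu⌋
      rw [← h6]
      show Near Gs NG (T.nf (psi b, ⌊((s' : ℝ) - (st (psi b)).y) / (st (psi b)).mu⌋)) _
      have hidx' : hidx b - hidx (st (psi b)).b = n := by
        conv_lhs => rw [hb]
        rw [← hb]
        have := g0.hidx_eq n hn
        rw [← hb] at this
        exact this
      by_cases hu : hidx b - hidx (st (psi b)).b = 0 ∧ used (psi b) (st (psi b)) κH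
      · obtain ⟨κ, k1, k2, k3⟩ := hu.2
        have hp : π = (psi b, κ) := by
          rw [hπ, ← k3]
          exact plane_used hu.1 k1 k2
        rw [hp]
        exact Near.refl _ _
      · rw [hidx'] at hu
        have hp : π = _ := hπ.trans (plane_not hidx' hu)
        have hc := code_nonneg (n, κH)
        have hcb := code_le (cell_bound _ v n hn) κH
        have hst : st π.1 = child (st (psi b)) (psi b) ⟨(kstar (psi b)).1, (kstar (psi b)).2,
          (kstar (psi b)).2, code (n, κH) + 1⟩ := by rw [hp]; rfl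
        have hmu : (st π.1).mu = (st (psi b)).mu := by
          rw [hst]; exact LV_self _ (kstar (psi b))
        have hy : (st π.1).y = YY (st (psi b)) (kstar (psi b)) (kstar (psi b)).2
            (code (n, κH) + 1) := by rw [hst]; rfl
        have hyb := YY_star g0 (kstar_cases (psi b)) (code (n, κH) + 1)
        rw [← hy] at hyb
        have hπ1 : π.1 = ⟨(kstar (psi b)).1, (kstar (psi b)).2,
          (kstar (psi b)).2, code (n, κH) + 1⟩ :: psi b := by rw [hp]
        rw [hmu, hπ1]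
        rw [← hmu, ← hπ1, hmu]
        rw [hπ1]
        rw [← hπ1]
        have hfl : |⌊((s' : ℝ) - (st π.1).y) / (st (psi b)).mu⌋ -
            ⌊((s' : ℝ) - (st (psi b)).y) / (st (psi b)).mu⌋| ≤ ((4 * (PB + 1) + 1 : ℕ) : ℤ) := by
          apply floor_sub_le
          have hm0 : (st (psi b)).mu ≠ 0 := by
            intro h; have := g0.lo; rw [h] at this; norm_num at this
          have e : ((s' : ℝ) - (st π.1).y) / (st (psi b)).mu -
              ((s' : ℝ) - (st (psi b)).y) / (st (psi b)).mu =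
              - (((st π.1).y - (st (psi b)).y) / (st (psi b)).mu) := by
            field_simp; ring
          rw [e, abs_neg, abs_div, div_le_iff₀ (by linarith [g0.lo])]
          have hpp : |((code (n, κH) + 1 : ℤ) : ℝ)| ≤ PB + 1 := by
            rw [abs_of_nonneg (by exact_mod_cast (by omega : 0 ≤ code (n, κH) + 1))]
            exact_mod_cast (by omega : code (n, κH) + 1 ≤ (PB : ℤ) + 1)
          push_cast
          have h10 := g0.lo
          have h11 : (0 : ℝ) ≤ PB := Nat.cast_nonneg _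
          nlinarith
        have := near_star hG (psi b) (kstar_cases (psi b)) (code (n, κH) + 1) (by omega)
          (by omega) _ _ hfl
        rw [← hπ1] at this
        exact this
  · set j := SH.idx κH.1 d' x' with hj
    set s' := SH.ver κH.1 d' x' with hs'
    set π := plane (psi b) b κH with hπ
    set o := oo (st π.1) π.2 with ho
    have hK := slo_ok g π.2 (sg o d')
    have hlev := lev_rng (optOf_rng π.2 g.lo g.hi) (sg o d')
    refine ⟨SG.rep π.2.1 (sg o d') (I (KK (st π.1) π.2 (sg o d')) (TH (st π.1) π.2 (sg o d')) j) +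
      sm ⌊((s' : ℝ) - YY (st π.1) π.2 (sg o d')
        (I (KK (st π.1) π.2 (sg o d')) (TH (st π.1) π.2 (sg o d')) j)) /
          LV (st π.1) π.2 (sg o d')⌋ (SG.vec π.2.1 (sg o d')), ?_, ?_⟩
    · have e1 := FF_idx g π.2 (sg o d') (I (KK (st π.1) π.2 (sg o d')) (TH (st π.1) π.2 (sg o d')) j)
        ⌊((s' : ℝ) - YY (st π.1) π.2 (sg o d')
        (I (KK (st π.1) π.2 (sg o d')) (TH (st π.1) π.2 (sg o d')) j)) /
          LV (st π.1) π.2 (sg o d')⌋
      have e2 := FF_ver (st π.1) π.2 (sg o d') (I (KK (st π.1) π.2 (sg o d')) (TH (st π.1) π.2 (sg o d')) j)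
        ⌊((s' : ℝ) - YY (st π.1) π.2 (sg o d')
        (I (KK (st π.1) π.2 (sg o d')) (TH (st π.1) π.2 (sg o d')) j)) /
          LV (st π.1) π.2 (sg o d')⌋
      rw [← ho, sg_sg] at e1 e2
      have e3 := div_floor_close (m := LV (st π.1) π.2 (sg o d')) (a := (s' : ℝ) - YY (st π.1) π.2 (sg o d')
        (I (KK (st π.1) π.2 (sg o d')) (TH (st π.1) π.2 (sg o d')) j)) hlev.1 hlev.2
      have e4 := I_close hK.1 (TH (st π.1) π.2 (sg o d')) j
      have h5 := Cl_of (r := d') (x := x')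
        (w := FF (st π.1) π.2 (SG.rep π.2.1 (sg o d') (I (KK (st π.1) π.2 (sg o d')) (TH (st π.1) π.2 (sg o d')) j) +
      sm ⌊((s' : ℝ) - YY (st π.1) π.2 (sg o d')
        (I (KK (st π.1) π.2 (sg o d')) (TH (st π.1) π.2 (sg o d')) j)) /
          LV (st π.1) π.2 (sg o d')⌋ (SG.vec π.2.1 (sg o d')))) (a := 17) (b := 8) ?_ ?_
      · norm_num at h5
        exact h5
      · have h6 : idxV d' x' = j := rfl
        rw [h6]
        have h7 := hK.2
        rw [abs_le] at e1 e4 ⊢
        constructor <;> linarith [e1.1, e1.2, e4.1, e4.2]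
      · have h6 : verV d' x' = s' := rfl
        rw [h6, e2]
        rw [abs_le] at e3 ⊢
        constructor <;> linarith [e3.1, e3.2]
    · refine Near.of_eq ?_
      exact T.gel_cons π.2.1 π.1 π.2.2 (sg o d')
        (I (KK (st π.1) π.2 (sg o d')) (TH (st π.1) π.2 (sg o d')) j)
        ⌊((s' : ℝ) - YY (st π.1) π.2 (sg o d')
        (I (KK (st π.1) π.2 (sg o d')) (TH (st π.1) π.2 (sg o d')) j)) /
          LV (st π.1) π.2 (sg o d')⌋

end Pool.Agent.W392.QI
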