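import Mathlib

set_option autoImplicit false
set_option linter.unusedSectionVars false
set_option linter.unusedSimpArgs false

/-! Tubular tree systems: a hub `ℤ` and planes `ℤ²`, each plane glued to the hub along three
directions.  `X` is the set of reduced addresses together with a vertical coordinate. -/

namespace Pool.Agent.W392.QI

inductive Role | r0 | r1 | r2
  deriving DecidableEq

instance : Inhabited Role := ⟨Role.r0⟩

instance : Fintype Role := ⟨{Role.r0, Role.r1, Role.r2}, by intro x; cases x <;> simp⟩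

def sm (s : ℤ) (v : ℤ × ℤ) : ℤ × ℤ := (s * v.1, s * v.2)

theorem sm_zero (v : ℤ × ℤ) : sm 0 v = 0 := by simp [sm]
theorem sm_one (v : ℤ × ℤ) : sm 1 v = v := by simp [sm]
theorem sm_add (s t : ℤ) (v : ℤ × ℤ) : sm (s + t) v = sm s v + sm t v := by simp [sm, add_mul]

structure Sys (C : Type) where
  base : C → Role
  vec : C → Role → ℤ × ℤ
  rep : C → Role → ℤ → ℤ × ℤ
  idx : C → Role → ℤ × ℤ → ℤ
  ver : C → Role → ℤ × ℤ → ℤ
  decomp : ∀ (c : C) (r : Role) (x : ℤ × ℤ), rep c r (idx c r x) + sm (ver c r x) (vec c r) = x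
  idx_eq : ∀ (c : C) (r : Role) (i s : ℤ), idx c r (rep c r i + sm s (vec c r)) = i
  ver_eq : ∀ (c : C) (r : Role) (i s : ℤ), ver c r (rep c r i + sm s (vec c r)) = s
  rep_zero : ∀ (c : C) (r : Role), rep c r 0 = 0

/-- a step: enter the plane of class `c` through its direction `r` (at index `0`), leave it by the
hub of index `i` in direction `d` -/
structure Step (C : Type) where
  c : C
  r : Role
  d : Role
  i : ℤ

variable {C : Type} [DecidableEq C]

/-- the kind of the plane through which the hub was reached -/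
def own : List (Step C) → Option (C × Role)
  | [] => none
  | s :: _ => some (s.c, s.d)

/-- reduced addresses -/
def Valid : List (Step C) → Prop
  | [] => True
  | s :: l => Valid l ∧ own l ≠ some (s.c, s.r) ∧ ¬ (s.d = s.r ∧ s.i = 0)

/-- the element of the plane `(l, r)` of class `c`, in sheet `d`, at lattice point `x` -/
def elem (S : Sys C) (c : C) (p : List (Step C) × Role) (d : Role) (x : ℤ × ℤ) :
    List (Step C) × ℤ :=
  if d = p.2 ∧ S.idx c d x = 0 then (p.1, S.ver c d x)
  else (⟨c, p.2, d, S.idx c d x⟩ :: p.1, S.ver c d x)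

/-- the plane of class `c` and the lattice point of an element regarded in sheet `d` -/
def loc (S : Sys C) (c : C) (d : Role) : List (Step C) × ℤ → (List (Step C) × Role) × (ℤ × ℤ)
  | ([], s) => (([], d), sm s (S.vec c d))
  | (t :: l, s) =>
    if t.c = c ∧ t.d = d then ((l, t.r), S.rep c d t.i + sm s (S.vec c d))
    else ((t :: l, d), sm s (S.vec c d))

/-- validity of a plane of class `c` -/
def PValid (c : C) (p : List (Step C) × Role) : Prop :=
  Valid p.1 ∧ own p.1 ≠ some (c, p.2)

theorem idx_smul (S : Sys C) (c : C) (r : Role) (s : ℤ) : S.idx c r (sm s (S.vec c r)) = 0 := by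
  have := S.idx_eq c r 0 s
  rwa [S.rep_zero, zero_add] at this

theorem ver_smul (S : Sys C) (c : C) (r : Role) (s : ℤ) : S.ver c r (sm s (S.vec c r)) = s := by
  have := S.ver_eq c r 0 s
  rwa [S.rep_zero, zero_add] at this

theorem elem_valid (S : Sys C) {c : C} {p : List (Step C) × Role} (hp : PValid c p) (d : Role)
    (x : ℤ × ℤ) : Valid (elem S c p d x).1 := by
  unfold elem
  split_ifs with h
  · exact hp.1
  · exact ⟨hp.1, hp.2, h⟩

theorem loc_valid (S : Sys C) (c : C) (d : Role) {x : List (Step C) × ℤ} (hx : Valid x.1) :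
    PValid c (loc S c d x).1 := by
  obtain ⟨l, s⟩ := x
  cases l with
  | nil => exact ⟨trivial, by simp [loc, own]⟩
  | cons t l =>
    simp only [loc]
    split_ifs with h
    · obtain ⟨h1, h2⟩ := h
      subst h1 h2
      exact ⟨hx.1, hx.2.1⟩
    · refine ⟨hx, ?_⟩
      simp only [own, ne_eq, Option.some.injEq, Prod.mk.injEq]
      exact h

theorem elem_loc (S : Sys C) (c : C) (d : Role) {x : List (Step C) × ℤ} (hx : Valid x.1) :
    elem S c (loc S c d x).1 d (loc S c d x).2 = x := by
  obtain ⟨l, s⟩ := x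
  cases l with
  | nil => simp [loc, elem, idx_smul, ver_smul]
  | cons t l =>
    simp only [loc]
    split_ifs with h
    · obtain ⟨h1, h2⟩ := h
      subst h1 h2
      simp only [elem, S.idx_eq, S.ver_eq]
      rw [if_neg hx.2.2]
    · simp [elem, idx_smul, ver_smul]

theorem loc_elem (S : Sys C) {c : C} {p : List (Step C) × Role} (hp : PValid c p) (d : Role)
    (x : ℤ × ℤ) : loc S c d (elem S c p d x) = (p, x) := by
  obtain ⟨l, r⟩ := p
  unfold elem
  split_ifs with h
  · obtain ⟨h1, h2⟩ := h
    dsimp only at h1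
    subst h1
    have hx : sm (S.ver c d x) (S.vec c d) = x := by
      have := S.decomp c d x
      rwa [h2, S.rep_zero, zero_add] at this
    cases l with
    | nil => simp [loc, hx]
    | cons t l =>
      have hne : ¬ (t.c = c ∧ t.d = d) := by
        intro h
        apply hp.2
        simp [own, h.1, h.2]
      simp only [loc, if_neg hne, hx]
  · simp [loc, S.decomp]

/-- the reduced addresses with vertical coordinate -/
def X (C : Type) [DecidableEq C] : Type := {x : List (Step C) × ℤ // Valid x.1}

def Pl (c : C) : Type := {p : List (Step C) × Role // PValid c p}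

/-- sheet `d` of the planes of class `c` -/
def sheet (S : Sys C) (c : C) (d : Role) : X C ≃ Pl c × (ℤ × ℤ) where
  toFun x := (⟨(loc S c d x.1).1, loc_valid S c d x.2⟩, (loc S c d x.1).2)
  invFun p := ⟨elem S c p.1.1 d p.2, elem_valid S p.1.2 d p.2⟩
  left_inv x := Subtype.ext (elem_loc S c d x.2)
  right_inv p := by
    have h := loc_elem S p.1.2 d p.2
    have h1 : (loc S c d (elem S c p.1.1 d p.2)).1 = p.1.1 := by rw [h]
    have h2 : (loc S c d (elem S c p.1.1 d p.2)).2 = p.2 := by rw [h]
    exact Prod.ext (Subtype.ext h1) h2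

def actZ : Equiv.Perm (X C) where
  toFun x := ⟨(x.1.1, x.1.2 + 1), x.2⟩
  invFun x := ⟨(x.1.1, x.1.2 - 1), x.2⟩
  left_inv x := Subtype.ext (by simp)
  right_inv x := Subtype.ext (by simp)

theorem actZ_val (x : X C) : (actZ x).1 = (x.1.1, x.1.2 + 1) := rfl

theorem loc_actZ (S : Sys C) (c : C) (d : Role) (l : List (Step C)) (s : ℤ) :
    loc S c d (l, s + 1) = ((loc S c d (l, s)).1, (loc S c d (l, s)).2 + S.vec c d) := by
  cases l with
  | nil => simp [loc, sm_add, sm_one]
  | cons t l =>
    by_cases h : t.c = c ∧ t.d = d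
    · simp only [loc, if_pos h, sm_add, sm_one, add_assoc]
    · simp only [loc, if_neg h, sm_add, sm_one]

theorem sheet_actZ (S : Sys C) (c : C) (d : Role) (x : X C) :
    sheet S c d (actZ x) = ((sheet S c d x).1, (sheet S c d x).2 + S.vec c d) := by
  have h := loc_actZ S c d x.1.1 x.1.2
  have h1 : (loc S c d (x.1.1, x.1.2 + 1)).1 = (loc S c d x.1).1 := by rw [h]
  have h2 : (loc S c d (x.1.1, x.1.2 + 1)).2 = (loc S c d x.1).2 + S.vec c d := by rw [h]
  exact Prod.ext (Subtype.ext h1) h2

def shiftP (c : C) (v : ℤ × ℤ) : Equiv.Perm (Pl c × (ℤ × ℤ)) where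
  toFun p := (p.1, p.2 + v)
  invFun p := (p.1, p.2 - v)
  left_inv p := by simp
  right_inv p := by simp

@[simp] theorem shiftP_apply (c : C) (v : ℤ × ℤ) (p : Pl c × (ℤ × ℤ)) :
    shiftP c v p = (p.1, p.2 + v) := rfl

/-- translation by a lattice vector, in the base sheet -/
def actL (S : Sys C) (c : C) (v : ℤ × ℤ) : Equiv.Perm (X C) :=
  (sheet S c (S.base c)).trans ((shiftP c v).trans (sheet S c (S.base c)).symm)

/-- the letter of sheet `d` -/
def actR (S : Sys C) (c : C) (d : Role) : Equiv.Perm (X C) :=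
  (sheet S c (S.base c)).trans (sheet S c d).symm

theorem actL_add (S : Sys C) (c : C) (v w : ℤ × ℤ) (x : X C) :
    actL S c w (actL S c v x) = actL S c (v + w) x := by
  simp [actL, add_assoc]

theorem actL_vec (S : Sys C) (c : C) (x : X C) :
    actL S c (S.vec c (S.base c)) x = actZ x := by
  apply (sheet S c (S.base c)).injective
  rw [sheet_actZ]
  simp [actL]

theorem actR_rel (S : Sys C) (c : C) (d : Role) (x : X C) :
    actR S c d (actL S c (S.vec c d) x) = actZ (actR S c d x) := by
  apply (sheet S c d).injective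
  rw [sheet_actZ]
  simp [actL, actR]

end Pool.Agent.W392.QI
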